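import Mathlib
import Pool.Agent.H916R3.HFC.Main

set_option autoImplicit false

/-!
# Definitions and task statements: under CH there is a non-cosmic space `X` with `C_p(X)`
hereditarily sequentially separable
-/

namespace Pool.Agent.H774R5

open Set Filter Topology
open Pool.Agent.H916R3.HFC (W1)

/-- The Cantor set. -/
abbrev Cantor : Type := ℕ → Bool

/-- The lexicographic strict order on the Cantor set. -/
def Lx (x y : Cantor) : Prop := ∃ n, (∀ i < n, x i = y i) ∧ x n = false ∧ y n = true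

/-- Agreement from `m` on. -/
def Ag (m : ℕ) (x y : Cantor) : Prop := ∀ i, m ≤ i → x i = y i

/-- Eventual agreement. -/
def E0 (x y : Cantor) : Prop := ∃ m, Ag m x y

/-- Conditions of Silver type: an infinite set `y` of free places and a function `g`. -/
structure Cond where
  y : Set ℕ
  inf : y.Infinite
  g : Cantor

/-- The points satisfying the condition exactly. -/
def Cond.box (p : Cond) : Set Cantor := {h | ∀ n, n ∉ p.y → h n = p.g n}

/-- The points satisfying the condition up to finitely many places. -/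
def Cond.star (p : Cond) : Set Cantor := {h | ∃ m, ∀ n, m ≤ n → n ∉ p.y → h n = p.g n}

/-- `q` is below `p` mod finite. -/
def Cond.Le (q p : Cond) : Prop :=
  ∃ m, ∀ n, m ≤ n → (n ∈ q.y → n ∈ p.y) ∧ (n ∉ p.y → q.g n = p.g n)

/-- TASK A. -/
def LimStmt : Prop :=
  ∀ p : ℕ → Cond, (∀ n, (p (n + 1)).Le (p n)) → ∃ q : Cond, ∀ n, q.Le (p n)

/-- TASK B. -/
def FusionStmt : Prop :=
  ∀ (p : Cond) (U : ℕ → Set Cantor) (A : Set Cantor), (∀ k, IsOpen (U k)) → A.Countable →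
    ∃ q : Cond, q.Le p ∧
      ((∃ (F : Finset Cantor) (m : ℕ), (F : Set Cantor) ⊆ A ∧
          ∀ h ∈ q.box, ∀ k, ¬ ((F : Set Cantor) ∪ {z | Ag m z h} ⊆ U k)) ∨
        (∃ u : ℕ → ℕ, (∀ a ∈ A, ∀ᶠ n in atTop, a ∈ U (u n)) ∧
          ∀ h ∈ q.star, ∀ᶠ n in atTop, h ∈ U (u n)))

/-- The union of the classes of the points of the family. -/
def XX (x : W1 → Cantor) : Set Cantor := {z | ∃ α, E0 z (x α)}

/-- A closed set defined from `e γ` and finitely many earlier points. -/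
def Bset (e : W1 → ℕ → ℕ → Cantor) (x : W1 → Cantor) (γ : W1) (i : ℕ)
    (τ : Finset (ℕ × W1)) (s0 s1 : Finset (ℕ × ℕ × Bool)) : Set Cantor :=
  {y | ∀ m : ℕ,
    (∃ k, (∀ q ∈ τ, ∀ l < m, e γ k q.1 l = x q.2 l) ∧ (∀ l < m, e γ k i l = y l) ∧
      ∀ p ∈ s0, e γ k p.1 p.2.1 = p.2.2) ∧
    (∃ k, (∀ q ∈ τ, ∀ l < m, e γ k q.1 l = x q.2 l) ∧ (∀ l < m, e γ k i l = y l) ∧
      ∀ p ∈ s1, e γ k p.1 p.2.1 = p.2.2)}

/-- The properties of the family. -/
structure Good (x : W1 → Cantor) : Prop where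
  av : ∃ e : W1 → ℕ → ℕ → Cantor, (∀ s, ∃ γ, e γ = s) ∧
    ∀ β γ, γ < β → ∀ i τ s0 s1, (∀ q ∈ τ, q.2 < β) → x β ∈ Bset e x γ i τ s0 s1 →
      ∃ z ∈ Bset e x γ i τ s0 s1, z ≠ x β
  ne : ∀ α β, α < β → ¬ E0 (x β) (x α)
  gam : ∀ (C : Set Cantor) (U : ℕ → Set Cantor), C.Countable → (∀ k, IsOpen (U k)) →
    (∀ F : Finset Cantor, (F : Set Cantor) ⊆ XX x \ C → ∃ k, (F : Set Cantor) ⊆ U k) →
    ∃ u : ℕ → ℕ, ∀ z ∈ XX x \ C, ∀ᶠ n in atTop, z ∈ U (u n)

/-- TASK C: the construction. -/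
def ConstrStmt : Prop :=
  Cardinal.aleph.{0} 1 = Cardinal.continuum → ∃ x : W1 → Cantor, Good x

/-- TASK D: the increasing property. -/
def IncStmt : Prop :=
  ∀ x : W1 → Cantor, Good x → ∀ (T : Finset ℕ) (a : W1 → ℕ → Cantor) (J : Set W1),
    ¬ J.Countable → (∀ ξ ∈ J, ∀ i ∈ T, a ξ i ∈ XX x) →
    ∃ η ∈ J, ∃ ξ ∈ J, η < ξ ∧ ∀ i ∈ T, a ξ i = a η i ∨ Lx (a η i) (a ξ i)

/-- The space. -/
def Sp (x : W1 → Cantor) : Type := {z : Cantor // z ∈ XX x}

open Classical in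
/-- The map defining the topology (half-open intervals of the lexicographic order). -/
noncomputable def emb (x : W1 → Cantor) (z : Sp x) : Cantor × (Sp x → Bool) :=
  (z.1, fun w => decide (z = w ∨ Lx w.1 z.1))

noncomputable instance (x : W1 → Cantor) : TopologicalSpace (Sp x) :=
  TopologicalSpace.induced (emb x) inferInstance

/-- TASK N: neighbourhoods in the space. -/
def NbhdStmt : Prop :=
  ∀ (x : W1 → Cantor) (O : Set (Sp x)), IsOpen O → ∀ z ∈ O, ∃ m : ℕ, ∀ w : Sp x,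
    (∀ l < m, w.1 l = z.1 l) → (w = z ∨ Lx z.1 w.1) → w ∈ O

/-- TASK E: `C_p` is hereditarily separable. -/
def HSStmt : Prop :=
  ∀ x : W1 → Cantor, Good x → ∀ S : Set {f : Sp x → ℝ // Continuous f},
    ∃ c ⊆ S, c.Countable ∧ S ⊆ closure c

/-- TASK F: closures of countable sets of `C_p` are sequential. -/
def FUStmt : Prop :=
  ∀ x : W1 → Cantor, Good x → ∀ D : Set {f : Sp x → ℝ // Continuous f}, D.Countable →
    ∀ f ∈ closure D, ∃ u : ℕ → {f : Sp x → ℝ // Continuous f}, (∀ k, u k ∈ D) ∧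
      ∀ z, Tendsto (fun k => (u k).1 z) atTop (𝓝 (f.1 z))

end Pool.Agent.H774R5
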