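import Mathlib
import Pool.Agent.H774R5.Defs

set_option autoImplicit false

namespace Pool.Agent.H774R5

open Set Filter Topology Cardinal
open Pool.Agent.H916R3.HFC (W1 mk_W1 W1_Iio W1_univ)

theorem enum_W1 {K : Type} (hK : #K ≤ Cardinal.aleph.{0} 1) [Nonempty K] :
    ∃ e : W1 → K, ∀ (s : K) (γ : W1), ∃ β, γ < β ∧ e β = s := by
  have hle : #(W1 × K) ≤ #W1 := by
    rw [Cardinal.mk_prod, Cardinal.lift_id, Cardinal.lift_id, mk_W1]
    refine (mul_le_mul' (le_refl _) hK).trans ?_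
    rw [Cardinal.mul_eq_self Cardinal.aleph0_lt_aleph_one.le]
  obtain ⟨g⟩ := hle
  have hne : Nonempty (W1 × K) := by
    have : Nonempty W1 := by
      rw [← Cardinal.mk_ne_zero_iff, mk_W1]
      exact (Cardinal.aleph0_lt_aleph_one.pos).ne'
    exact ⟨(this.some, Classical.arbitrary K)⟩
  obtain ⟨e, he⟩ : ∃ e : W1 → W1 × K, Function.LeftInverse e g :=
    ⟨Function.invFun g, Function.leftInverse_invFun g.injective⟩
  refine ⟨fun β => (e β).2, fun s γ => ?_⟩
  by_contra hcon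
  push Not at hcon
  apply W1_univ
  have hsub : Set.range (fun i : W1 => g (i, s)) ⊆ Set.Iic γ := by
    rintro _ ⟨i, rfl⟩
    rw [Set.mem_Iic]
    by_contra h
    exact hcon (g (i, s)) (not_le.1 h) (by
      have := he (i, s)
      rw [this])
  have hcount : (Set.range (fun i : W1 => g (i, s))).Countable :=
    (Pool.Agent.H916R3.HFC.countable_Iic W1_Iio γ).mono hsub
  have hinj : Function.Injective (fun i : W1 => g (i, s)) := by
    intro i j h
    have := g.injective h
    exact congrArg Prod.fst this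
  have h3 := hcount.preimage hinj
  have h4 : (fun i : W1 => g (i, s)) ⁻¹' Set.range (fun i : W1 => g (i, s)) = Set.univ := by
    ext i
    simp
  rwa [h4] at h3

theorem exists_rec {I T : Type*} [LinearOrder I] [WellFoundedLT I]
    (P : (ξ : I) → (Set.Iio ξ → T) → T → Prop) (h : ∀ ξ r, ∃ a, P ξ r a) :
    ∃ g : I → T, ∀ ξ, P ξ (fun η => g η.1) (g ξ) := by
  classical
  choose F hF using h
  let wf : WellFounded (fun a b : I => a < b) := IsWellFounded.wf
  let g : I → T := wf.fix (C := fun _ => T) (fun ξ r => F ξ (fun η => r η.1 η.2))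
  refine ⟨g, fun ξ => ?_⟩
  have h1 : g ξ = F ξ (fun η => g η.1) :=
    wf.fix_eq (C := fun _ => T) (fun ξ r => F ξ (fun η => r η.1 η.2)) ξ
  have h2 := hF ξ (fun η => g η.1)
  rw [← h1] at h2
  exact h2

theorem Cond.Le.refl (p : Cond) : p.Le p := ⟨0, fun _ _ => ⟨id, fun _ => rfl⟩⟩

theorem Cond.Le.trans {p q r : Cond} (h1 : p.Le q) (h2 : q.Le r) : p.Le r := by
  obtain ⟨m, hm⟩ := h1
  obtain ⟨k, hk⟩ := h2
  refine ⟨max m k, fun n hn => ?_⟩
  have a := hm n ((le_max_left _ _).trans hn)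
  have b := hk n ((le_max_right _ _).trans hn)
  refine ⟨fun h => b.1 (a.1 h), fun h => ?_⟩
  rw [a.2 (fun h' => h (b.1 h')), b.2 h]

theorem Cond.Le.star {p q : Cond} (h : q.Le p) {z : Cantor} (hz : z ∈ q.star) : z ∈ p.star := by
  obtain ⟨m, hm⟩ := h
  obtain ⟨k, hk⟩ := hz
  refine ⟨max m k, fun n hn hy => ?_⟩
  have a := hm n ((le_max_left _ _).trans hn)
  rw [hk n ((le_max_right _ _).trans hn) (fun h' => hy (a.1 h')), a.2 hy]

theorem Cond.box_star {p : Cond} {z : Cantor} (hz : z ∈ p.box) : z ∈ p.star :=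
  ⟨0, fun n _ h => hz n h⟩

theorem Cond.star_E0 {p : Cond} {z w : Cantor} (hz : E0 z w) (hw : w ∈ p.star) : z ∈ p.star := by
  obtain ⟨m, hm⟩ := hz
  obtain ⟨k, hk⟩ := hw
  exact ⟨max m k, fun n hn h => by
    rw [hm n ((le_max_left _ _).trans hn), hk n ((le_max_right _ _).trans hn) h]⟩

theorem E0.symm {z w : Cantor} (h : E0 z w) : E0 w z := by
  obtain ⟨m, hm⟩ := h
  exact ⟨m, fun i hi => (hm i hi).symm⟩

theorem E0.trans {z w v : Cantor} (h : E0 z w) (h' : E0 w v) : E0 z v := by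
  obtain ⟨m, hm⟩ := h
  obtain ⟨k, hk⟩ := h'
  exact ⟨max m k, fun n hn => by
    rw [hm n ((le_max_left _ _).trans hn), hk n ((le_max_right _ _).trans hn)]⟩

theorem finite_Ag (m : ℕ) (w : Cantor) : {z | Ag m z w}.Finite := by
  have hinj : Set.InjOn (fun (z : Cantor) (i : Fin m) => z i) {z | Ag m z w} := by
    intro a ha b hb hab
    funext i
    by_cases hi : i < m
    · exact congrFun hab ⟨i, hi⟩
    · rw [ha i (not_lt.1 hi), hb i (not_lt.1 hi)]
  exact Set.Finite.of_finite_image (Set.toFinite _) hinj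

theorem countable_E0 (w : Cantor) : {z | E0 z w}.Countable := by
  have : {z | E0 z w} = ⋃ m, {z | Ag m z w} := by
    ext z
    simp [E0]
  rw [this]
  exact Set.countable_iUnion fun m => (finite_Ag m w).countable

theorem box_avoid (q : Cond) (B : Set Cantor) (hB : B.Countable) : ∃ h ∈ q.box, h ∉ B := by
  classical
  by_contra hcon
  push Not at hcon
  let φ : (q.y → Bool) → Cantor := fun f n => if h : n ∈ q.y then f ⟨n, h⟩ else q.g n
  have hφ : ∀ f, φ f ∈ q.box := fun f n hn => by simp [φ, hn]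
  have hinj : Function.Injective φ := by
    intro f f' h
    funext ⟨n, hn⟩
    have := congrFun h n
    simpa [φ, hn] using this
  have hc : (Set.univ : Set (q.y → Bool)).Countable := by
    have h1 : (φ ⁻¹' B).Countable := hB.preimage hinj
    have h2 : φ ⁻¹' B = Set.univ := by
      ext f
      simp only [Set.mem_preimage, Set.mem_univ, iff_true]
      exact hcon _ (hφ f)
    rwa [h2] at h1
  rw [Set.countable_univ_iff, ← Cardinal.mk_le_aleph0_iff] at hc
  have hinf : Infinite q.y := q.inf.to_subtype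
  have h1 : ℵ₀ ≤ #q.y := Cardinal.aleph0_le_mk _
  have h2 : #(q.y → Bool) = 2 ^ #q.y := by simp
  rw [h2] at hc
  exact absurd (lt_of_lt_of_le (Cardinal.cantor _) hc) (not_lt.2 h1)

theorem Bset_congr {e : W1 → ℕ → ℕ → Cantor} {x x' : W1 → Cantor} {γ : W1} {i : ℕ}
    {τ : Finset (ℕ × W1)} {s0 s1 : Finset (ℕ × ℕ × Bool)} (h : ∀ q ∈ τ, x q.2 = x' q.2) :
    Bset e x γ i τ s0 s1 = Bset e x' γ i τ s0 s1 := by
  ext z
  have h0 : ∀ k m, (∀ q ∈ τ, ∀ l < m, e γ k q.1 l = x q.2 l) ↔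
      (∀ q ∈ τ, ∀ l < m, e γ k q.1 l = x' q.2 l) := fun k m =>
    ⟨fun H q hq l hl => by rw [H q hq l hl, h q hq], fun H q hq l hl => by rw [H q hq l hl, h q hq]⟩
  simp only [Bset, Set.mem_setOf_eq, h0]

/-- pseudo-intersections along initial segments -/
theorem lim_chain (hL : LimStmt) (ξ : W1) (r : Set.Iio ξ → Cond)
    (hr : ∀ η η' : Set.Iio ξ, η ≤ η' → (r η').Le (r η)) : ∃ q : Cond, ∀ η, q.Le (r η) := by
  rcases isEmpty_or_nonempty (Set.Iio ξ) with hE | hN
  · exact ⟨⟨Set.univ, Set.infinite_univ, fun _ => false⟩, fun η => (hE.false η).elim⟩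
  · have : Countable (Set.Iio ξ) := W1_Iio ξ
    obtain ⟨s, hs⟩ := exists_surjective_nat (Set.Iio ξ)
    let t : ℕ → Set.Iio ξ := fun n => Nat.rec (s 0) (fun n a => max a (s (n + 1))) n
    have ht : ∀ n, t (n + 1) = max (t n) (s (n + 1)) := fun n => rfl
    have hst : ∀ n, s n ≤ t n := by
      intro n
      cases n with
      | zero => exact le_refl _
      | succ n => rw [ht]; exact le_max_right _ _
    obtain ⟨q, hq⟩ := hL (fun n => r (t n)) (fun n => hr _ _ (by rw [ht]; exact le_max_left _ _))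
    refine ⟨q, fun η => ?_⟩
    obtain ⟨n, rfl⟩ := hs η
    exact (hq n).trans (hr _ _ (hst n))

end Pool.Agent.H774R5
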