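import Mathlib
import Pool.Agent.H774R5.Constr

set_option autoImplicit false

namespace Pool.Agent.H774R5

open Set Filter Topology Cardinal
open Pool.Agent.H916R3.HFC (W1 mk_W1 W1_Iio W1_univ)

/-- codes -/
abbrev Code : Type := ℕ → (Cantor × Bool × Cantor)

def dC (s : Code) : Set Cantor := {z | ∃ n, (s n).1 = z ∧ (s n).2.1 = true}

def dU (B : ℕ → Set Cantor) (s : Code) (k : ℕ) : Set Cantor :=
  {z | ∃ j, (s k).2.2 j = true ∧ z ∈ B j}

theorem exists_basis : ∃ B : ℕ → Set Cantor, (∀ j, IsOpen (B j)) ∧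
    ∀ U : Set Cantor, IsOpen U → ∀ z ∈ U, ∃ j, z ∈ B j ∧ B j ⊆ U := by
  have hb := TopologicalSpace.isBasis_countableBasis Cantor
  have hne : (TopologicalSpace.countableBasis Cantor).Nonempty := by
    obtain ⟨v, hv, -, -⟩ := hb.exists_subset_of_mem_open (Set.mem_univ (fun _ => false : Cantor))
      isOpen_univ
    exact ⟨v, hv⟩
  obtain ⟨B, hB⟩ := (TopologicalSpace.countable_countableBasis Cantor).exists_eq_range hne
  refine ⟨B, fun j => ?_, fun U hU z hz => ?_⟩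
  · exact TopologicalSpace.isOpen_of_mem_countableBasis (by rw [hB]; exact Set.mem_range_self j)
  · obtain ⟨v, hv, h1, h2⟩ := hb.exists_subset_of_mem_open hz hU
    rw [hB] at hv
    obtain ⟨j, rfl⟩ := hv
    exact ⟨j, h1, h2⟩

theorem dU_open {B : ℕ → Set Cantor} (hB : ∀ j, IsOpen (B j)) (s : Code) (k : ℕ) :
    IsOpen (dU B s k) := by
  have : dU B s k = ⋃ j ∈ {j | (s k).2.2 j = true}, B j := by
    ext z
    simp [dU]
  rw [this]
  exact isOpen_biUnion fun j _ => hB j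

theorem exists_code {B : ℕ → Set Cantor} 
    (hB : ∀ U : Set Cantor, IsOpen U → ∀ z ∈ U, ∃ j, z ∈ B j ∧ B j ⊆ U)
    (C : Set Cantor) (hC : C.Countable) (U : ℕ → Set Cantor) (hU : ∀ k, IsOpen (U k)) :
    ∃ s : Code, dC s = C ∧ ∀ k, dU B s k = U k := by
  classical
  obtain ⟨c, b, hcb⟩ : ∃ (c : ℕ → Cantor) (b : Bool), ∀ z, z ∈ C ↔ ∃ n, c n = z ∧ b = true := by
    rcases C.eq_empty_or_nonempty with rfl | hne
    · exact ⟨fun _ _ => false, false, by simp⟩
    · obtain ⟨c, hc⟩ := hC.exists_eq_range hne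
      exact ⟨c, true, by simp [hc]⟩
  refine ⟨fun n => (c n, b, fun j => decide (B j ⊆ U n)), ?_, fun k => ?_⟩
  · ext z
    exact (hcb z).symm
  · ext z
    simp only [dU, decide_eq_true_eq]
    constructor
    · rintro ⟨j, h1, h2⟩
      exact h1 h2
    · intro hz
      obtain ⟨j, h1, h2⟩ := hB (U k) (hU k) z hz
      exact ⟨j, h2, h1⟩

theorem mk_code (hCH : Cardinal.aleph.{0} 1 = Cardinal.continuum) :
    #Code ≤ Cardinal.aleph.{0} 1 := by
  rw [hCH]
  have h1 : #Cantor = Cardinal.continuum := by simp [Cantor]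
  have h2 : #(Cantor × Bool × Cantor) ≤ Cardinal.continuum := by
    rw [Cardinal.mk_prod, Cardinal.mk_prod]
    simp only [Cardinal.lift_id, h1, Cardinal.mk_bool]
    have h3 : (2 : Cardinal.{0}) ≤ Cardinal.continuum := (Cardinal.nat_lt_continuum 2).le
    calc Cardinal.continuum * (2 * Cardinal.continuum)
        ≤ Cardinal.continuum * (Cardinal.continuum * Cardinal.continuum) := by gcongr
      _ = Cardinal.continuum := by
        rw [Cardinal.continuum_mul_self, Cardinal.continuum_mul_self]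
  calc #Code = #(Cantor × Bool × Cantor) ^ #ℕ := by simp [Code]
    _ ≤ Cardinal.continuum ^ #ℕ := Cardinal.power_le_power_right h2
    _ = Cardinal.continuum := by rw [Cardinal.mk_nat, Cardinal.continuum_power_aleph0]

theorem mk_seq (hCH : Cardinal.aleph.{0} 1 = Cardinal.continuum) :
    #(ℕ → ℕ → Cantor) ≤ Cardinal.aleph.{0} 1 := by
  rw [hCH]
  have h1 : #Cantor = Cardinal.continuum := by simp [Cantor]
  calc #(ℕ → ℕ → Cantor) = (#Cantor ^ #ℕ) ^ #ℕ := by simp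
    _ ≤ Cardinal.continuum := by
      rw [h1, Cardinal.mk_nat, Cardinal.continuum_power_aleph0, Cardinal.continuum_power_aleph0]

/-- extension of a partial family -/
noncomputable def ext (ξ : W1) (r : Set.Iio ξ → Cantor × Cond) (α : W1) : Cantor :=
  open Classical in if h : α < ξ then (r ⟨α, h⟩).1 else fun _ => false

/-- one step -/
def Step (B : ℕ → Set Cantor) (e : W1 → ℕ → ℕ → Cantor) (d : W1 → Code) (ξ : W1)
    (r : Set.Iio ξ → Cantor × Cond) (a : Cantor × Cond) : Prop :=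
  (∀ η η' : Set.Iio ξ, η ≤ η' → (r η').2.Le (r η).2) →
    (∀ η, a.2.Le (r η).2) ∧ a.1 ∈ a.2.box ∧ (∀ η, ¬ E0 a.1 (r η).1) ∧
    (∀ γ < ξ, ∀ i τ s0 s1, (∀ q ∈ τ, q.2 < ξ) → a.1 ∈ Bset e (ext ξ r) γ i τ s0 s1 →
      ∃ z ∈ Bset e (ext ξ r) γ i τ s0 s1, z ≠ a.1) ∧
    ((∃ (F : Finset Cantor) (m : ℕ), (F : Set Cantor) ⊆ {z | ∃ η, E0 z (r η).1} \ dC (d ξ) ∧
          ∀ h ∈ a.2.box, ∀ k, ¬ ((F : Set Cantor) ∪ {z | Ag m z h} ⊆ dU B (d ξ) k)) ∨
        (∃ u : ℕ → ℕ, (∀ z ∈ {z | ∃ η, E0 z (r η).1} \ dC (d ξ),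
            ∀ᶠ n in atTop, z ∈ dU B (d ξ) (u n)) ∧
          ∀ h ∈ a.2.star, ∀ᶠ n in atTop, h ∈ dU B (d ξ) (u n)))

theorem exists_step (hL : LimStmt) (hF : FusionStmt) {B : ℕ → Set Cantor}
    (hB : ∀ j, IsOpen (B j)) (e : W1 → ℕ → ℕ → Cantor) (d : W1 → Code) (ξ : W1)
    (r : Set.Iio ξ → Cantor × Cond) : ∃ a, Step B e d ξ r a := by
  classical
  by_cases hch : ∀ η η' : Set.Iio ξ, η ≤ η' → (r η').2.Le (r η).2
  swap
  · exact ⟨(fun _ => false, ⟨Set.univ, Set.infinite_univ, fun _ => false⟩), fun h => absurd h hch⟩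
  have hcI : Countable (Set.Iio ξ) := W1_Iio ξ
  obtain ⟨q0, hq0⟩ := lim_chain hL ξ (fun η => (r η).2) hch
  have hA : ({z | ∃ η, E0 z (r η).1} \ dC (d ξ)).Countable := by
    refine Set.Countable.mono Set.sdiff_subset ?_
    have : {z | ∃ η, E0 z (r η).1} = ⋃ η, {z | E0 z (r η).1} := by
      ext z
      simp
    rw [this]
    exact Set.countable_iUnion fun η => countable_E0 _
  obtain ⟨q, hq, hqq⟩ := hF q0 (dU B (d ξ)) _ (fun k => dU_open hB _ k) hA
  -- the set to avoid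
  let Z : Type := Set.Iio ξ × ℕ × Finset {q : ℕ × W1 // q.2 < ξ} × Finset (ℕ × ℕ × Bool) ×
    Finset (ℕ × ℕ × Bool)
  have hZ1 : Countable {q : ℕ × W1 // q.2 < ξ} := by
    have hinj : Function.Injective (fun q : {q : ℕ × W1 // q.2 < ξ} =>
        ((q.1.1, ⟨q.1.2, q.2⟩) : ℕ × Set.Iio ξ)) := by
      rintro ⟨⟨a, b⟩, h⟩ ⟨⟨a', b'⟩, h'⟩ hh
      simp only [Prod.mk.injEq] at hh
      have h2 : b = b' := congrArg Subtype.val hh.2
      have h1 : a = a' := hh.1
      subst h1 h2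
      rfl
    exact hinj.countable
  have hZ : Countable Z := by infer_instance
  let S : Z → Set Cantor := fun t => {y | y ∈ Bset e (ext ξ r) t.1.1 t.2.1
    (t.2.2.1.map (Function.Embedding.subtype _)) t.2.2.2.1 t.2.2.2.2 ∧
    ∀ w ∈ Bset e (ext ξ r) t.1.1 t.2.1
    (t.2.2.1.map (Function.Embedding.subtype _)) t.2.2.2.1 t.2.2.2.2, w = y}
  have hS : (⋃ t, S t).Countable := by
    refine Set.countable_iUnion fun t => ?_
    refine Set.Subsingleton.countable ?_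
    intro a ha b hb
    exact hb.2 a ha.1
  have hE : (⋃ η, {z | E0 z (r η).1}).Countable := Set.countable_iUnion fun η => countable_E0 _
  obtain ⟨h, hhb, hh⟩ := box_avoid q _ (hS.union hE)
  rw [Set.mem_union, not_or] at hh
  refine ⟨(h, q), fun _ => ⟨fun η => hq.trans (hq0 η), hhb, fun η hη => ?_, ?_, hqq⟩⟩
  · exact hh.2 (Set.mem_iUnion.2 ⟨η, hη⟩)
  · intro γ hγ i τ s0 s1 hτ hmem
    by_contra hcon
    push Not at hcon
    apply hh.1
    refine Set.mem_iUnion.2 ⟨(⟨γ, hγ⟩, i, τ.subtype (fun q => q.2 < ξ), s0, s1), ?_⟩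
    have hτ' : (τ.subtype (fun q => q.2 < ξ)).map (Function.Embedding.subtype _) = τ :=
      Finset.subtype_map_of_mem hτ
    show h ∈ Bset e (ext ξ r) γ i _ s0 s1 ∧ ∀ w ∈ Bset e (ext ξ r) γ i _ s0 s1, w = h
    rw [hτ']
    exact ⟨hmem, hcon⟩

theorem taskC (hL : LimStmt) (hF : FusionStmt) : ConstrStmt := by
  classical
  intro hCH
  have hW : Nonempty W1 := by
    rw [← Cardinal.mk_ne_zero_iff, mk_W1]
    exact (Cardinal.aleph0_lt_aleph_one.pos).ne'
  obtain ⟨B, hB1, hB2⟩ := exists_basis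
  obtain ⟨e, he⟩ := enum_W1 (mk_seq hCH)
  obtain ⟨d, hd⟩ := enum_W1 (mk_code hCH)
  obtain ⟨g, hg⟩ := exists_rec (I := W1) (T := Cantor × Cond) (Step B e d)
    (exists_step hL hF hB1 e d)
  have hchain : ∀ ξ, ∀ η < ξ, (g ξ).2.Le (g η).2 := by
    intro ξ
    induction ξ using WellFoundedLT.induction with
    | ind ξ ih =>
      intro η hη
      have h1 := hg ξ (by
        rintro ⟨a, ha⟩ ⟨b, hb⟩ hab
        rcases eq_or_lt_of_le (show a ≤ b from hab) with rfl | hlt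
        · exact Cond.Le.refl _
        · exact ih b hb a hlt)
      exact h1.1 ⟨η, hη⟩
  have hch : ∀ ξ, ∀ η η' : Set.Iio ξ, η ≤ η' → (g η'.1).2.Le (g η.1).2 := by
    rintro ξ ⟨a, ha⟩ ⟨b, hb⟩ hab
    rcases eq_or_lt_of_le (show a ≤ b from hab) with rfl | hlt
    · exact Cond.Le.refl _
    · exact hchain b a hlt
  have hst : ∀ ξ, _ := fun ξ => hg ξ (hch ξ)
  let x : W1 → Cantor := fun α => (g α).1
  have hne : ∀ α β, α < β → ¬ E0 (x β) (x α) := fun α β hab => (hst β).2.2.1 ⟨α, hab⟩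
  refine ⟨x, ⟨e, fun s => ?_, ?_⟩, hne, ?_⟩
  · obtain ⟨β, -, hβ⟩ := he s hW.some
    exact ⟨β, hβ⟩
  · intro β γ hγ i τ s0 s1 hτ hmem
    have hcong : Bset e x γ i τ s0 s1 = Bset e (ext β fun η => g η.1) γ i τ s0 s1 := by
      apply Bset_congr
      intro q hq
      simp [ext, x, hτ q hq]
    rw [hcong] at hmem ⊢
    exact (hst β).2.2.2.1 γ hγ i τ s0 s1 hτ hmem
  · intro C U hC hU hcov
    -- a bound for the indices of the points of C
    choose! idx hidx using fun (z : Cantor) (hz : z ∈ XX x) => hz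
    have hbd : ∃ γ : W1, ∀ z ∈ C ∩ XX x, idx z ≤ γ := by
      have hc1 : (idx '' (C ∩ XX x)).Countable := (hC.mono Set.inter_subset_left).image _
      obtain ⟨γ, hγ⟩ := Pool.Agent.H916R3.HFC.bdd_of_countable W1_Iio W1_univ hc1
      exact ⟨γ, fun z hz => (hγ _ (Set.mem_image_of_mem _ hz)).le⟩
    obtain ⟨γ, hγ⟩ := hbd
    obtain ⟨s, hs1, hs2⟩ := exists_code hB2 C hC U hU
    obtain ⟨β, hβ, hdβ⟩ := hd s γ
    have hU' : ∀ k, dU B (d β) k = U k := fun k => by rw [hdβ, hs2]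
    have hC' : dC (d β) = C := by rw [hdβ, hs1]
    have hold : ∀ z ∈ XX x, z ∈ C → ∃ η < β, E0 z (x η) := fun z hz hzC =>
      ⟨idx z, lt_of_le_of_lt (hγ z ⟨hzC, hz⟩) hβ, hidx z hz⟩
    rcases (hst β).2.2.2.2 with ⟨F, m, hFA, hFno⟩ | ⟨u, hu1, hu2⟩
    · exfalso
      obtain ⟨k, hk⟩ := hcov (F ∪ (finite_Ag m (x β)).toFinset) (by
        intro z hz
        rw [Finset.coe_union, Set.mem_union] at hz
        rcases hz with hz | hz
        · obtain ⟨⟨η, hη⟩, hz2⟩ := hFA hz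
          rw [hC'] at hz2
          exact ⟨⟨η.1, hη⟩, hz2⟩
        · have hz' : Ag m z (x β) := by simpa using hz
          refine ⟨⟨β, m, hz'⟩, fun hzC => ?_⟩
          obtain ⟨η, hη, hzη⟩ := hold z ⟨β, m, hz'⟩ hzC
          have h3 : E0 z (x β) := ⟨m, hz'⟩
          exact hne η β hη (h3.symm.trans hzη))
      apply hFno (x β) (hst β).2.1 k
      rw [hU' k]
      intro z hz
      apply hk
      rw [Finset.coe_union]
      rcases hz with hz | hz
      · exact Or.inl hz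
      · right
        simpa using hz
    · refine ⟨u, fun z hz => ?_⟩
      simp only [hU'] at hu1 hu2
      obtain ⟨⟨α, hα⟩, hzC⟩ := hz
      rcases lt_or_ge α β with hlt | hle
      · apply hu1 z
        rw [hC']
        exact ⟨⟨⟨α, hlt⟩, hα⟩, hzC⟩
      · apply hu2 z
        refine Cond.star_E0 hα ?_
        have h1 : x α ∈ (g α).2.star := Cond.box_star (hst α).2.1
        rcases eq_or_lt_of_le hle with rfl | hlt
        · exact h1
        · exact (hchain α β hlt).star h1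

end Pool.Agent.H774R5
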