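import Mathlib
import Pool.Agent.H774R5.Defs

set_option autoImplicit false

namespace Pool.Agent.H774R5

open Set Filter Topology
open Pool.Agent.H916R3.HFC (W1)

theorem Lx.irrefl (x : Cantor) : ¬ Lx x x := by
  rintro ⟨n, -, h1, h2⟩
  rw [h1] at h2
  exact Bool.false_ne_true h2

theorem Lx.total {x y : Cantor} (h : x ≠ y) : Lx x y ∨ Lx y x := by
  classical
  have hex : ∃ n, x n ≠ y n := by
    by_contra hc
    push Not at hc
    exact h (funext hc)
  have h1 := Nat.find_spec hex
  have h2 : ∀ i < Nat.find hex, x i = y i := fun i hi => by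
    have := Nat.find_min hex hi
    push Not at this
    exact this
  rcases hx : x (Nat.find hex) with _ | _
  · left
    refine ⟨Nat.find hex, h2, hx, ?_⟩
    rw [hx] at h1
    rcases hy : y (Nat.find hex) with _ | _
    · exact absurd hy.symm h1
    · rfl
  · right
    refine ⟨Nat.find hex, fun i hi => (h2 i hi).symm, ?_, hx⟩
    rw [hx] at h1
    rcases hy : y (Nat.find hex) with _ | _
    · rfl
    · exact absurd hy.symm h1

theorem Lx.trans {x y z : Cantor} (h1 : Lx x y) (h2 : Lx y z) : Lx x z := by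
  obtain ⟨n, a1, a2, a3⟩ := h1
  obtain ⟨k, b1, b2, b3⟩ := h2
  rcases lt_trichotomy n k with h | h | h
  · exact ⟨n, fun i hi => (a1 i hi).trans (b1 i (hi.trans h)), a2, by rw [← b1 n h]; exact a3⟩
  · subst h; rw [b2] at a3; exact absurd a3 (by simp)
  · exact ⟨k, fun i hi => (a1 i (hi.trans h)).trans (b1 i hi), by rw [a1 k h]; exact b2, b3⟩

theorem Lx.asymm {x y : Cantor} (h1 : Lx x y) (h2 : Lx y x) : False := Lx.irrefl x (h1.trans h2)

/-- stability of `Lx` -/
theorem Lx.stabL {x y : Cantor} (h : Lx x y) : ∃ n, ∀ z : Cantor, (∀ l < n, z l = x l) → Lx z y := by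
  obtain ⟨n, a1, a2, a3⟩ := h
  refine ⟨n + 1, fun z hz => ⟨n, fun i hi => ?_, ?_, a3⟩⟩
  · rw [hz i (by omega)]; exact a1 i hi
  · rw [hz n (by omega)]; exact a2

theorem Lx.stabR {x y : Cantor} (h : Lx x y) : ∃ n, ∀ z : Cantor, (∀ l < n, z l = y l) → Lx x z := by
  obtain ⟨n, a1, a2, a3⟩ := h
  refine ⟨n + 1, fun z hz => ⟨n, fun i hi => ?_, a2, ?_⟩⟩
  · rw [hz i (by omega)]; exact a1 i hi
  · rw [hz n (by omega)]; exact a3

theorem taskN : NbhdStmt := by
  classical
  intro x O hO z hz
  obtain ⟨V, hV, rfl⟩ := isOpen_induced_iff.1 hO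
  have hzV : emb x z ∈ V := hz
  obtain ⟨V1, V2, hV1, hV2, hz1, hz2, hsub⟩ := isOpen_prod_iff.1 hV (emb x z).1 (emb x z).2 hzV
  obtain ⟨F, u, hu, hFu⟩ := isOpen_pi_iff.1 hV1 _ hz1
  obtain ⟨G, v, hv, hGv⟩ := isOpen_pi_iff.1 hV2 _ hz2
  -- a bound for the coordinates in F
  obtain ⟨m1, hm1⟩ : ∃ m1, ∀ i ∈ F, i < m1 := ⟨F.sup id + 1, fun i hi => by
    have := Finset.le_sup (f := id) hi
    simp only [id] at this
    omega⟩
  have hG : ∀ w0 : Sp x, ∃ n, ∀ w : Sp x, (∀ l < n, w.1 l = z.1 l) → (w = z ∨ Lx z.1 w.1) →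
      ((emb x w).2 w0 = (emb x z).2 w0) := by
    intro w0
    by_cases h0 : z.1 = w0.1
    · refine ⟨0, fun w _ hw => ?_⟩
      have hzw : z = w0 := Subtype.ext h0
      simp only [emb]
      congr 1
      apply propext
      constructor
      · intro _; exact Or.inl hzw
      · intro _
        rcases hw with rfl | hw
        · exact Or.inl hzw
        · right; rw [← h0]; exact hw
    · rcases Lx.total h0 with h | h
      · obtain ⟨n, hn⟩ := h.stabL
        refine ⟨n, fun w hw _ => ?_⟩
        simp only [emb]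
        congr 1
        apply propext
        have h1 := hn w.1 hw
        constructor
        · rintro (rfl | h2)
          · exact absurd h1 (Lx.irrefl _)
          · exact (h1.asymm h2).elim
        · rintro (h2 | h2)
          · exact absurd (congrArg Subtype.val h2) h0
          · exact (h.asymm h2).elim
      · obtain ⟨n, hn⟩ := h.stabR
        refine ⟨n, fun w hw _ => ?_⟩
        simp only [emb]
        congr 1
        apply propext
        have h1 := hn w.1 hw
        exact ⟨fun _ => Or.inr h, fun _ => Or.inr h1⟩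
  choose n hn using hG
  refine ⟨max m1 (G.sup n), fun w hw hzw => ?_⟩
  show emb x w ∈ V
  apply hsub
  refine ⟨?_, ?_⟩
  · apply hFu
    intro i hi
    have h1 : (emb x w).1 i = (emb x z).1 i := by
      show w.1 i = z.1 i
      exact hw i (lt_of_lt_of_le (hm1 i hi) (le_max_left _ _))
    rw [h1]
    exact (hu i hi).2
  · apply hGv
    intro w0 hw0
    have h1 : (emb x w).2 w0 = (emb x z).2 w0 := by
      apply hn w0 w _ hzw
      intro l hl
      exact hw l (lt_of_lt_of_le hl ((Finset.le_sup (f := n) hw0).trans (le_max_right _ _)))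
    rw [h1]
    exact (hv w0 hw0).2

end Pool.Agent.H774R5
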