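import Mathlib
import Pool.Agent.H774R5.TaskN
import Pool.Agent.H774R5.TaskC

set_option autoImplicit false

namespace Pool.Agent.H774R5

open Set Filter Topology Cardinal
open Pool.Agent.H916R3.HFC (W1 mk_W1 W1_Iio W1_univ)

theorem emb_inj (x : W1 → Cantor) : Function.Injective (emb x) := by
  intro z w h
  exact Subtype.ext (congrArg Prod.fst h)

instance (x : W1 → Cantor) : T35Space (Sp x) := by
  have : IsEmbedding (emb x) := ⟨⟨rfl⟩, emb_inj x⟩
  exact this.t35Space

theorem continuous_coord (x : W1 → Cantor) (w : Sp x) :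
    Continuous (fun z : Sp x => (emb x z).2 w) := by
  have h : Continuous (emb x) := continuous_induced_dom
  exact (continuous_apply w).comp (continuous_snd.comp h)

open Classical in
/-- The characteristic function of the half-line `[w, ∞)`. -/
noncomputable def ch (x : W1 → Cantor) (w z : Sp x) : ℝ := if (z = w ∨ Lx w.1 z.1) then 1 else 0

theorem continuous_ch (x : W1 → Cantor) (w : Sp x) : Continuous (ch x w) := by
  have h1 : ch x w = (fun b : Bool => if b then (1 : ℝ) else 0) ∘ (fun z : Sp x => (emb x z).2 w) := by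
    funext z
    simp only [ch, emb, Function.comp]
    by_cases h : z = w ∨ Lx w.1 z.1 <;> simp [h]
  rw [h1]
  exact (continuous_of_discreteTopology).comp (continuous_coord x w)

theorem uncountable_Sp {x : W1 → Cantor} (hx : Good x) : ¬ (Set.univ : Set (Sp x)).Countable := by
  intro hc
  apply W1_univ
  let φ : W1 → Sp x := fun α => ⟨x α, α, 0, fun _ _ => rfl⟩
  have hinj : Function.Injective φ := by
    intro a b hab
    have h : x a = x b := congrArg Subtype.val hab
    rcases lt_trichotomy a b with h1 | h1 | h1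
    · exact absurd ⟨0, fun i _ => by rw [h]⟩ (hx.ne a b h1)
    · exact h1
    · exact absurd ⟨0, fun i _ => by rw [h]⟩ (hx.ne b a h1)
  have h2 := hc.preimage hinj
  rwa [Set.preimage_univ] at h2

/-- The space has no countable network in `C_p`. -/
theorem no_network {x : W1 → Cantor} (hx : Good x) :
    ¬ ∃ N : Set (Set (Sp x → ℝ)), N.Countable ∧
        (∀ n ∈ N, n ⊆ {f : Sp x → ℝ | Continuous f}) ∧
        ∀ f : Sp x → ℝ, Continuous f → ∀ U : Set (Sp x → ℝ), IsOpen U → f ∈ U →
          ∃ n ∈ N, f ∈ n ∧ n ⊆ U := by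
  rintro ⟨N, hN, -, hnet⟩
  have h1 : ∀ w : Sp x, ∃ n ∈ N, ch x w ∈ n ∧ n ⊆ {g : Sp x → ℝ | (1 / 2 : ℝ) < g w} := by
    intro w
    refine hnet (ch x w) (continuous_ch x w) _ ?_ ?_
    · exact isOpen_lt continuous_const (continuous_apply w)
    · show (1 / 2 : ℝ) < ch x w w
      simp [ch]
      norm_num
  choose n hn1 hn2 hn3 using h1
  apply uncountable_Sp hx
  have hinj : Function.Injective n := by
    have key : ∀ a b : Sp x, Lx a.1 b.1 → n a ≠ n b := by
      intro a b hab h
      have h2 : ch x b ∈ n a := by rw [h]; exact hn2 b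
      have h3 : (1 / 2 : ℝ) < ch x b a := hn3 a h2
      have h4 : ch x b a = 0 := by
        have : ¬ (a = b ∨ Lx b.1 a.1) := by
          rintro (h5 | h5)
          · rw [h5] at hab; exact Lx.irrefl _ hab
          · exact hab.asymm h5
        simp [ch, this]
      rw [h4] at h3
      norm_num at h3
    intro a b h
    by_contra hne
    have hne' : a.1 ≠ b.1 := fun h' => hne (Subtype.ext h')
    rcases Lx.total hne' with h1 | h1
    · exact key a b h1 h
    · exact key b a h1 h.symm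
  have h5 : (n ⁻¹' N).Countable := hN.preimage hinj
  have h6 : n ⁻¹' N = Set.univ := by
    ext w
    simp [hn1 w]
  rwa [h6] at h5

/-- Hereditary sequential separability. -/
theorem hss (hHS : HSStmt) (hFU : FUStmt) {x : W1 → Cantor} (hx : Good x) (A : Set (Sp x → ℝ))
    (hA : A ⊆ {f : Sp x → ℝ | Continuous f}) :
    ∃ D : Set (Sp x → ℝ), D ⊆ A ∧ D.Countable ∧
      ∀ f ∈ A, ∃ u : ℕ → Sp x → ℝ, (∀ k, u k ∈ D) ∧ Tendsto u atTop (𝓝 f) := by
  obtain ⟨c, hc1, hc2, hc3⟩ := hHS x hx {f | f.1 ∈ A}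
  refine ⟨Subtype.val '' c, ?_, hc2.image _, ?_⟩
  · rintro _ ⟨f, hf, rfl⟩
    exact hc1 hf
  · intro f hf
    obtain ⟨u, hu, hlim⟩ := hFU x hx c hc2 ⟨f, hA hf⟩ (hc3 hf)
    refine ⟨fun k => (u k).1, fun k => ⟨u k, hu k, rfl⟩, ?_⟩
    rw [tendsto_pi_nhds]
    exact hlim

theorem final (hL : LimStmt) (hF : FusionStmt) (hHS : HSStmt) (hFU : FUStmt)
    (hCH : Cardinal.aleph.{0} 1 = Cardinal.continuum) :
    ∃ (X : Type) (_ : TopologicalSpace X) (_ : T35Space X),
      (∀ A : Set (X → ℝ), A ⊆ {f : X → ℝ | Continuous f} →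
        ∃ D : Set (X → ℝ), D ⊆ A ∧ D.Countable ∧
          ∀ f ∈ A, ∃ u : ℕ → X → ℝ, (∀ k, u k ∈ D) ∧
            Filter.Tendsto u Filter.atTop (nhds f)) ∧
      ¬ ∃ N : Set (Set (X → ℝ)), N.Countable ∧
        (∀ n ∈ N, n ⊆ {f : X → ℝ | Continuous f}) ∧
        ∀ f : X → ℝ, Continuous f → ∀ U : Set (X → ℝ), IsOpen U → f ∈ U →
          ∃ n ∈ N, f ∈ n ∧ n ⊆ U := by
  obtain ⟨x, hx⟩ := taskC hL hF hCH
  exact ⟨Sp x, inferInstance, inferInstance, hss hHS hFU hx, no_network hx⟩

end Pool.Agent.H774R5
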