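import Mathlib
import Pool.Agent.H774R5.Final

set_option autoImplicit false

namespace Pool.Agent.H774R5

open Set Filter Topology
open Pool.Agent.H916R3.HFC (W1 mk_W1 W1_Iio W1_univ)

/-- The open part in the Cantor topology. -/
def VV (x : W1 → Cantor) (O : Set (Sp x)) : Set Cantor :=
  {v | ∃ m : ℕ, ∀ w : Sp x, (∀ l < m, w.1 l = v l) → w ∈ O}

theorem VV_open (x : W1 → Cantor) (O : Set (Sp x)) : IsOpen (VV x O) := by
  rw [isOpen_iff_forall_mem_open]
  rintro v ⟨m, hm⟩
  refine ⟨PiNat.cylinder (E := fun _ => Bool) v m, ?_, PiNat.isOpen_cylinder _ _ _,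
    PiNat.self_mem_cylinder _ _⟩
  intro v' hv'
  refine ⟨m, fun w hw => hm w fun l hl => ?_⟩
  rw [hw l hl]
  exact hv' l hl

theorem VV_sub {x : W1 → Cantor} {O : Set (Sp x)} {z : Sp x} (h : z.1 ∈ VV x O) : z ∈ O := by
  obtain ⟨m, hm⟩ := h
  exact hm z fun _ _ => rfl

theorem EE_countable (hN : NbhdStmt) (x : W1 → Cantor) {O : Set (Sp x)} (hO : IsOpen O) :
    {z : Sp x | z ∈ O ∧ z.1 ∉ VV x O}.Countable := by
  classical
  have h1 : ∀ z : Sp x, ∃ m : ℕ, z ∈ O → ∀ w : Sp x, (∀ l < m, w.1 l = z.1 l) →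
      (w = z ∨ Lx z.1 w.1) → w ∈ O := by
    intro z
    by_cases hz : z ∈ O
    · obtain ⟨m, hm⟩ := hN x O hO z hz
      exact ⟨m, fun _ => hm⟩
    · exact ⟨0, fun h => absurd h hz⟩
  choose m hm using h1
  have hinj : Set.InjOn (fun z : Sp x => (m z, (List.range (m z)).map z.1))
      {z : Sp x | z ∈ O ∧ z.1 ∉ VV x O} := by
    have key : ∀ a b : Sp x, a ∈ O → b.1 ∉ VV x O → m a = m b →
        (∀ l < m a, a.1 l = b.1 l) → ¬ Lx a.1 b.1 := by
      intro a b ha hb hmab hpre hlt
      apply hb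
      obtain ⟨n, hn⟩ := hlt.stabR
      refine ⟨max n (m a), fun w hw => ?_⟩
      apply hm a ha w
      · intro l hl
        rw [hw l (lt_of_lt_of_le hl (le_max_right _ _)), hpre l hl]
      · right
        exact hn w.1 fun l hl => hw l (lt_of_lt_of_le hl (le_max_left _ _))
    intro a ha b hb hab
    simp only [Prod.mk.injEq] at hab
    obtain ⟨hmab, hl⟩ := hab
    have hpre : ∀ l < m a, a.1 l = b.1 l := by
      rw [← hmab] at hl
      intro l hlt
      exact (List.map_inj_left.1 hl) l (List.mem_range.2 hlt)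
    by_contra hne
    have hne' : a.1 ≠ b.1 := fun h => hne (Subtype.ext h)
    rcases Lx.total hne' with h | h
    · exact key a b ha.1 hb.2 hmab hpre h
    · exact key b a hb.1 ha.2 hmab.symm (fun l hl => (hpre l (by rw [hmab]; exact hl)).symm) h
  exact Set.countable_of_injective_of_countable_image hinj (Set.to_countable _)

theorem fuseq (hN : NbhdStmt) : FUStmt := by
  classical
  intro x hx D hD f hf
  have hDne : D.Nonempty := by
    by_contra h
    rw [Set.not_nonempty_iff_eq_empty] at h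
    rw [h, closure_empty] at hf
    exact hf
  obtain ⟨d, rfl⟩ := hD.exists_eq_range hDne
  let O : ℕ → ℕ → Set (Sp x) := fun k j => {z | |(d k).1 z - f.1 z| < 1 / ((j : ℝ) + 1)}
  have hO : ∀ k j, IsOpen (O k j) := fun k j =>
    isOpen_lt (((d k).2.sub f.2).abs) continuous_const
  have hcov : ∀ (F : Finset (Sp x)) (j : ℕ), ∃ k, ∀ z ∈ F, z ∈ O k j := by
    intro F j
    have hop : IsOpen {g : {f : Sp x → ℝ // Continuous f} | ∀ z ∈ F,
        |g.1 z - f.1 z| < 1 / ((j : ℝ) + 1)} := by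
      have : {g : {f : Sp x → ℝ // Continuous f} | ∀ z ∈ F,
        |g.1 z - f.1 z| < 1 / ((j : ℝ) + 1)} = ⋂ z ∈ F, {g : {f : Sp x → ℝ // Continuous f} |
        |g.1 z - f.1 z| < 1 / ((j : ℝ) + 1)} := by
        ext g
        simp
      rw [this]
      refine isOpen_biInter_finset fun z _ => ?_
      have hc : Continuous (fun g : {f : Sp x → ℝ // Continuous f} => |g.1 z - f.1 z|) :=
        (((continuous_apply z).comp continuous_subtype_val).sub continuous_const).abs
      exact isOpen_lt hc continuous_const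
    obtain ⟨g, hg1, ⟨k, rfl⟩⟩ := mem_closure_iff.1 hf _ hop (by
      intro z _
      simp only [sub_self, abs_zero]
      positivity)
    exact ⟨k, hg1⟩
  -- the exceptional points
  have hW : Nonempty W1 := by
    rw [← Cardinal.mk_ne_zero_iff, mk_W1]
    exact (Cardinal.aleph0_lt_aleph_one.pos).ne'
  let z0 : Sp x := ⟨x hW.some, hW.some, 0, fun _ _ => rfl⟩
  let C' : Set (Sp x) := ⋃ k, ⋃ j, {z : Sp x | z ∈ O k j ∧ z.1 ∉ VV x (O k j)}
  have hC' : C'.Countable := Set.countable_iUnion fun k => Set.countable_iUnion fun j =>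
    EE_countable hN x (hO k j)
  obtain ⟨c, hc⟩ := (hC'.insert z0).exists_eq_range ⟨z0, Set.mem_insert _ _⟩
  have hcC : ∀ z ∈ C', ∃ n, c n = z := by
    intro z hz
    have : z ∈ Set.range c := by rw [← hc]; exact Set.mem_insert_of_mem _ hz
    exact this
  let C0 : Set Cantor := Set.range (fun n => (c n).1)
  have hC0 : C0.Countable := Set.countable_range _
  have hVV : ∀ (z : Sp x) k j, z.1 ∉ C0 → z ∈ O k j → z.1 ∈ VV x (O k j) := by
    intro z k j h1 h2
    by_contra h3
    obtain ⟨n, hn⟩ := hcC z (Set.mem_iUnion.2 ⟨k, Set.mem_iUnion.2 ⟨j, h2, h3⟩⟩)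
    exact h1 ⟨n, congrArg Subtype.val hn⟩
  have hSinf : {z : Sp x | z.1 ∉ C0}.Infinite := by
    intro hfin
    apply uncountable_Sp hx
    refine (hfin.countable.union (Set.countable_range c)).mono ?_
    intro z _
    by_cases hz : z.1 ∈ C0
    · right
      obtain ⟨n, hn⟩ := hz
      exact ⟨n, Subtype.ext hn⟩
    · exact Or.inl hz
  let p : ℕ ↪ {z : Sp x | z.1 ∉ C0} := hSinf.natEmbedding _
  have hpinj : Function.Injective (fun n => (p n).1.1) := by
    intro a b h
    exact p.injective (Subtype.ext (Subtype.ext h))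
  let U : ℕ → Set Cantor := fun t =>
    if ∀ i < t.unpair.2, c i ∈ O t.unpair.1 t.unpair.2 then
      VV x (O t.unpair.1 t.unpair.2) \ {(p t.unpair.2).1.1} else ∅
  have hU : ∀ t, IsOpen (U t) := by
    intro t
    simp only [U]
    split_ifs
    · exact (VV_open x _).sdiff isClosed_singleton
    · exact isOpen_empty
  have hUcov : ∀ F : Finset Cantor, (F : Set Cantor) ⊆ XX x \ C0 → ∃ t, (F : Set Cantor) ⊆ U t := by
    intro F hF
    obtain ⟨_, ⟨n, rfl⟩, hn⟩ := (Set.infinite_range_of_injective hpinj).exists_notMem_finset F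
    let F1 : Finset (Sp x) := F.attach.image (fun v => (⟨v.1, (hF v.2).1⟩ : Sp x)) ∪
      (Finset.range n).image c
    obtain ⟨k, hk⟩ := hcov F1 n
    refine ⟨Nat.pair k n, ?_⟩
    intro v hv
    have hcond : ∀ i < n, c i ∈ O k n := by
      intro i hi
      exact hk _ (Finset.mem_union_right _ (Finset.mem_image_of_mem _ (Finset.mem_range.2 hi)))
    simp only [U, Nat.unpair_pair]
    rw [if_pos hcond]
    refine ⟨?_, ?_⟩
    · have h1 : (⟨v, (hF hv).1⟩ : Sp x) ∈ O k n :=
        hk _ (Finset.mem_union_left _ (Finset.mem_image.2 ⟨⟨v, hv⟩, Finset.mem_attach _ _, rfl⟩))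
      exact hVV ⟨v, (hF hv).1⟩ k n (hF hv).2 h1
    · intro h
      rw [Set.mem_singleton_iff] at h
      rw [h] at hv
      exact hn hv
  obtain ⟨u, hu⟩ := hx.gam C0 U hC0 hU hUcov
  have hN1 : ∀ n0, ∀ᶠ i in atTop, (u i).unpair.2 ≠ n0 := by
    intro n0
    filter_upwards [hu (p n0).1.1 ⟨(p n0).1.2, (p n0).2⟩] with i hi hcon
    simp only [U] at hi
    split_ifs at hi with h
    · rw [hcon] at hi
      exact hi.2 rfl
    · exact hi
  have hNt : Tendsto (fun i => (u i).unpair.2) atTop atTop := by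
    rw [tendsto_atTop]
    intro n0
    have h1 : ∀ᶠ i in atTop, ∀ n ∈ Finset.range n0, (u i).unpair.2 ≠ n := by
      rw [Filter.eventually_all_finset]
      intro n _
      exact hN1 n
    filter_upwards [h1] with i hi
    by_contra hlt
    exact hi _ (Finset.mem_range.2 (not_le.1 hlt)) rfl
  have hmem : ∀ z : Sp x, ∀ᶠ i in atTop, z ∈ O (u i).unpair.1 (u i).unpair.2 := by
    intro z
    by_cases hz : z.1 ∈ C0
    · obtain ⟨l, hl⟩ := hz
      have hzl : z = c l := (Subtype.ext hl).symm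
      filter_upwards [hu (p 0).1.1 ⟨(p 0).1.2, (p 0).2⟩, hNt.eventually_gt_atTop l] with i hi hil
      simp only [U] at hi
      split_ifs at hi with h
      · rw [hzl]
        exact h l hil
      · exact hi.elim
    · filter_upwards [hu z.1 ⟨z.2, hz⟩] with i hi
      simp only [U] at hi
      split_ifs at hi with h
      · exact VV_sub hi.1
      · exact hi.elim
  refine ⟨fun i => d (u i).unpair.1, fun i => ⟨_, rfl⟩, fun z => ?_⟩
  rw [tendsto_iff_dist_tendsto_zero]
  refine squeeze_zero' (Filter.Eventually.of_forall fun _ => dist_nonneg) ?_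
    (tendsto_one_div_add_atTop_nhds_zero_nat.comp hNt)
  filter_upwards [hmem z] with i hi
  rw [Real.dist_eq]
  exact hi.le

end Pool.Agent.H774R5
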