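import Mathlib
import Pool.Agent.H774R5.Constr

set_option autoImplicit false

namespace Pool.Agent.H774R5

open Set Filter Topology

theorem taskA : LimStmt := by
  classical
  intro p hp
  have hle : ∀ n j, j ≤ n → (p n).Le (p j) := by
    intro n
    induction n with
    | zero => intro j hj; rw [Nat.le_zero.1 hj]; exact Cond.Le.refl _
    | succ n ih =>
      intro j hj
      rcases Nat.lt_or_ge j (n + 1) with h | h
      · exact (hp n).trans (ih j (by omega))
      · have : j = n + 1 := by omega
        rw [this]; exact Cond.Le.refl _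
  -- uniform bounds
  have hM : ∀ n, ∃ M, ∀ j ≤ n, ∀ l, M ≤ l → (l ∈ (p n).y → l ∈ (p j).y) ∧
      (l ∉ (p j).y → (p n).g l = (p j).g l) := by
    intro n
    have h1 : ∀ j, ∃ M, j ≤ n → ∀ l, M ≤ l → (l ∈ (p n).y → l ∈ (p j).y) ∧
      (l ∉ (p j).y → (p n).g l = (p j).g l) := by
      intro j
      by_cases hj : j ≤ n
      · obtain ⟨M, hM⟩ := hle n j hj
        exact ⟨M, fun _ => hM⟩
      · exact ⟨0, fun h => absurd h hj⟩
    choose M hM using h1
    refine ⟨(Finset.range (n + 1)).sup M, fun j hj l hl => hM j hj l ?_⟩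
    exact (Finset.le_sup (f := M) (Finset.mem_range.2 (by omega))).trans hl
  choose M hM using hM
  have hk : ∀ n a, ∃ k, k ∈ (p n).y ∧ a < k ∧ M n ≤ k := by
    intro n a
    obtain ⟨k, hk1, hk2⟩ := (p n).inf.exists_gt (max a (M n))
    exact ⟨k, hk1, lt_of_le_of_lt (le_max_left _ _) hk2, (le_max_right _ _).trans hk2.le⟩
  choose f hf1 hf2 hf3 using hk
  let k : ℕ → ℕ := fun n => Nat.rec (f 0 0) (fun n a => f (n + 1) a) n
  have hks : ∀ n, k (n + 1) = f (n + 1) (k n) := fun n => rfl
  have hky : ∀ n, k n ∈ (p n).y := by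
    intro n
    cases n with
    | zero => exact hf1 0 0
    | succ n => rw [hks]; exact hf1 _ _
  have hkM : ∀ n, M n ≤ k n := by
    intro n
    cases n with
    | zero => exact hf3 0 0
    | succ n => rw [hks]; exact hf3 _ _
  have hmono : StrictMono k := strictMono_nat_of_lt_succ fun n => by rw [hks]; exact hf2 _ _
  -- the block of l
  have hblock : ∀ l, k 0 ≤ l → ∃ n, k n ≤ l ∧ l < k (n + 1) := by
    intro l hl
    by_contra hcon
    push Not at hcon
    have hall : ∀ n, k n ≤ l := by
      intro n
      induction n with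
      | zero => exact hl
      | succ n ih => exact hcon n ih
    have h1 : l + 1 ≤ k (l + 1) := hmono.id_le _
    have h2 := hall (l + 1)
    omega
  choose! b hb1 hb2 using hblock
  refine ⟨⟨Set.range k, Set.infinite_range_of_injective hmono.injective,
    fun l => (p (b l)).g l⟩, fun j => ⟨k j, fun l hl => ?_⟩⟩
  have hk0 : k 0 ≤ l := (hmono.monotone (Nat.zero_le j)).trans hl
  constructor
  · rintro ⟨n, rfl⟩
    have hjn : j ≤ n := hmono.le_iff_le.1 hl
    exact (hM n j hjn (k n) (hkM n)).1 (hky n)
  · intro hly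
    have hjb : j ≤ b l := by
      by_contra h
      push Not at h
      have h1 : k (b l + 1) ≤ k j := hmono.monotone (show b l + 1 ≤ j by omega)
      have h2 := hb2 l hk0
      omega
    exact (hM (b l) j hjb l ((hkM _).trans (hb1 l hk0))).2 hly

end Pool.Agent.H774R5
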