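import Mathlib
import Pool.Agent.H774R5.Defs

set_option autoImplicit false

/-!
# Task B: fusion
-/

namespace Pool.Agent.H774R5.TB

open Set Filter Topology
open Pool.Agent.H774R5

/-- open sets contain cylinders around their points -/
lemma cyl {V : Set Cantor} (hV : IsOpen V) {w : Cantor} (hw : w ∈ V) :
    ∃ N : ℕ, ∀ z : Cantor, (∀ i < N, z i = w i) → z ∈ V := by
  rw [isOpen_pi_iff] at hV
  obtain ⟨I, u, hu, hsub⟩ := hV w hw
  refine ⟨I.sup id + 1, fun z hz => hsub ?_⟩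
  intro a ha
  have h1 : a ≤ I.sup id := Finset.le_sup (f := id) (Finset.mem_coe.1 ha)
  rw [hz a (by omega)]
  exact (hu a (Finset.mem_coe.1 ha)).2

/-- the finite set of modifications below `k + 1` -/
lemma cyl_all {V : Set Cantor} (hV : IsOpen V) (h : Cantor) (k : ℕ)
    (hs : {z | Ag (k + 1) z h} ⊆ V) :
    ∃ l : ℕ, ∀ z : Cantor, (∀ i, k < i → i < l → z i = h i) → z ∈ V := by
  classical
  let w : (Fin (k + 1) → Bool) → Cantor := fun b i => if hi : i < k + 1 then b ⟨i, hi⟩ else h i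
  have hw : ∀ b, w b ∈ V := by
    intro b
    apply hs
    intro i hi
    simp only [w]
    rw [dif_neg (by omega)]
  choose N hN using fun b => cyl hV (hw b)
  refine ⟨Finset.univ.sup N + 1, fun z hz => ?_⟩
  refine hN (fun i => z i) z fun i hi => ?_
  simp only [w]
  split_ifs with h1
  · rfl
  · apply hz i (by omega)
    have : N (fun i => z i) ≤ Finset.univ.sup N := Finset.le_sup (Finset.mem_univ _)
    omega

/-- **Task B** -/
theorem taskB : FusionStmt := by
  classical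
  intro p U A hU hA
  by_cases hcase : ∃ q : Cond, q.Le p ∧ ∃ (F : Finset Cantor) (m : ℕ), (F : Set Cantor) ⊆ A ∧
          ∀ h ∈ q.box, ∀ k, ¬ ((F : Set Cantor) ∪ {z | Ag m z h} ⊆ U k)
  · obtain ⟨q, h1, h2⟩ := hcase
    exact ⟨q, h1, Or.inl h2⟩
  push Not at hcase
  obtain ⟨f, hf⟩ := Set.countable_iff_exists_subset_range.1 hA
  let F : ℕ → Finset Cantor := fun n => ((Finset.range (n + 1)).image f).filter (· ∈ A)
  have hFA : ∀ n, (F n : Set Cantor) ⊆ A := by
    intro n a ha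
    exact (Finset.mem_filter.1 (Finset.mem_coe.1 ha)).2
  let State := {s : Cond × ℕ // s.2 ∈ s.1.y ∧ s.1.y ⊆ p.y ∧ ∀ n, n ∉ p.y → s.1.g n = p.g n}
  have hstep : ∀ (n : ℕ) (s : State), ∃ t : State, s.1.2 < t.1.2 ∧
      (∀ i, ¬ (s.1.2 < i ∧ i < t.1.2) → t.1.1.g i = s.1.1.g i) ∧
      ∃ u, (F n : Set Cantor) ⊆ U u ∧
        ∀ z : Cantor, (∀ i, s.1.2 < i → i < t.1.2 → z i = t.1.1.g i) → z ∈ U u := by
    rintro n ⟨⟨q, k⟩, hk, hy, hg⟩
    have hq : q.Le p := ⟨0, fun i _ => ⟨fun hi => hy hi, fun hi => hg i hi⟩⟩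
    obtain ⟨h, hh, u, hu⟩ := hcase q hq (F n) (k + 1) (hFA n)
    obtain ⟨l, hl⟩ := cyl_all (hU u) h k (subset_union_right.trans hu)
    obtain ⟨k', hk', hlt⟩ := q.inf.exists_gt (max k l)
    have hkk : k < k' := lt_of_le_of_lt (le_max_left _ _) hlt
    have hlk : l < k' := lt_of_le_of_lt (le_max_right _ _) hlt
    refine ⟨⟨(⟨q.y \ Set.Ioo k k', q.inf.sdiff (Set.finite_Ioo k k'),
      fun i => if k < i ∧ i < k' then h i else q.g i⟩, k'), ⟨hk', fun hc => ?_⟩,
      fun i hi => hy hi.1, fun i hi => ?_⟩, hkk, fun i hi => ?_, u, ?_, fun z hz => ?_⟩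
    · exact lt_irrefl _ hc.2
    · show (if k < i ∧ i < k' then h i else q.g i) = p.g i
      have h1 : i ∉ q.y := fun hc => hi (hy hc)
      rw [hh i h1, ite_self]
      exact hg i hi
    · show (if k < i ∧ i < k' then h i else q.g i) = q.g i
      rw [if_neg hi]
    · exact subset_union_left.trans hu
    · apply hl
      intro i h1 h2
      have h4 : i < k' := by omega
      have h3 : z i = (if k < i ∧ i < k' then h i else q.g i) := hz i h1 h4
      rw [h3, if_pos ⟨h1, h4⟩]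
  choose step hs1 hs2 hs3 using hstep
  obtain ⟨k0, hk0⟩ := p.inf.nonempty
  let Q : ℕ → State := fun n => Nat.rec ⟨(p, k0), hk0, subset_rfl, fun _ _ => rfl⟩
    (fun n s => step n s) n
  have hQs : ∀ n, Q (n + 1) = step n (Q n) := fun n => rfl
  let K : ℕ → ℕ := fun n => (Q n).1.2
  let G : ℕ → Cantor := fun n => (Q n).1.1.g
  have hK : StrictMono K := by
    apply strictMono_nat_of_lt_succ
    intro n
    show (Q n).1.2 < (Q (n + 1)).1.2
    rw [hQs]
    exact hs1 n (Q n)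
  have hG : ∀ n i, ¬ (K n < i ∧ i < K (n + 1)) → G (n + 1) i = G n i := by
    intro n i hi
    show (Q (n + 1)).1.1.g i = (Q n).1.1.g i
    rw [hQs]
    apply hs2 n (Q n) i
    rw [← hQs]
    exact hi
  have hstab : ∀ n m, n ≤ m → ∀ i, i ≤ K n → G m i = G n i := by
    intro n m hnm
    induction m, hnm using Nat.le_induction with
    | base => intro i _; rfl
    | succ m hm ih =>
      intro i hi
      rw [hG m i, ih i hi]
      rintro ⟨h1, -⟩
      have := hK.monotone hm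
      omega
  have hex : ∀ n, ∃ u, (F n : Set Cantor) ⊆ U u ∧
      ∀ z : Cantor, (∀ i, K n < i → i < K (n + 1) → z i = G (n + 1) i) → z ∈ U u := by
    intro n
    obtain ⟨u, h1, h2⟩ := hs3 n (Q n)
    exact ⟨u, h1, fun z hz => h2 z hz⟩
  choose u hu1 hu2 using hex
  have hKid : ∀ n, n ≤ K n := fun n => hK.id_le n
  refine ⟨⟨Set.range K, Set.infinite_range_of_injective hK.injective, fun i => G (i + 1) i⟩,
    ⟨0, fun n _ => ⟨?_, ?_⟩⟩, Or.inr ⟨u, ?_, ?_⟩⟩
  · rintro ⟨j, rfl⟩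
    exact (Q j).2.2.1 (Q j).2.1
  · intro hn
    exact (Q (n + 1)).2.2.2 n hn
  · intro a ha
    obtain ⟨j, rfl⟩ := hf ha
    filter_upwards [eventually_ge_atTop j] with n hn
    apply hu1 n
    rw [Finset.mem_coe, Finset.mem_filter]
    exact ⟨Finset.mem_image_of_mem f (Finset.mem_range.2 (by omega)), ha⟩
  · rintro h ⟨m, hm⟩
    filter_upwards [eventually_ge_atTop m] with n hn
    apply hu2 n
    intro i h1 h2
    have h3 := hKid n
    have h4 : i ∉ Set.range K := by
      rintro ⟨j, rfl⟩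
      have h5 : n < j := (hK.lt_iff_lt (a := n) (b := j)).1 h1
      have h6 : j < n + 1 := (hK.lt_iff_lt (a := j) (b := n + 1)).1 h2
      omega
    rw [hm i (by omega) h4]
    exact hstab (n + 1) (i + 1) (by omega) i h2.le

end Pool.Agent.H774R5.TB
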