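import Mathlib
import Pool.Agent.H774R5.Defs

set_option autoImplicit false

/-!
# Task D: the increasing property
-/

namespace Pool.Agent.H774R5

open Set Filter Topology
open Pool.Agent.H916R3.HFC (W1 uncountable_fiber countable_Iic W1_Iio)

namespace TaskDAux

theorem map_range_eq_iff (m : ℕ) (u v : Cantor) :
    (List.range m).map u = (List.range m).map v ↔ ∀ l < m, u l = v l := by
  rw [List.map_inj_left]
  simp only [List.mem_range]

theorem lx_total {u v : Cantor} (h : u ≠ v) : Lx u v ∨ Lx v u := by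
  classical
  have hex : ∃ n, u n ≠ v n := by
    by_contra hc
    push Not at hc
    exact h (funext hc)
  have h1 := Nat.find_spec hex
  have h2 : ∀ l < Nat.find hex, u l = v l := fun l hl => by
    by_contra hc
    exact Nat.find_min hex hl hc
  cases hu : u (Nat.find hex) <;> cases hv : v (Nat.find hex)
  · exact absurd (hu.trans hv.symm) h1
  · exact Or.inl ⟨_, h2, hu, hv⟩
  · exact Or.inr ⟨_, fun l hl => (h2 l hl).symm, hv, hu⟩
  · exact absurd (hu.trans hv.symm) h1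

/-- Elimination of the coordinates, from the largest index to the smallest one. -/
theorem elim (x : W1 → Cantor) (e : W1 → ℕ → ℕ → Cantor)
    (hav : ∀ β γ, γ < β → ∀ i τ s0 s1, (∀ q ∈ τ, q.2 < β) → x β ∈ Bset e x γ i τ s0 s1 →
      ∃ z ∈ Bset e x γ i τ s0 s1, z ≠ x β) (γ : W1) (b : ℕ → W1) (R : Finset ℕ) :
    Set.InjOn b R → (∀ i ∈ R, γ < b i) → ∀ s0 s1 : Finset (ℕ × ℕ × Bool),
    (∀ m : ℕ, ∃ k, (∀ j ∈ R, ∀ l < m, e γ k j l = x (b j) l) ∧
      ∀ p ∈ s0, e γ k p.1 p.2.1 = p.2.2) →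
    (∀ m : ℕ, ∃ k, (∀ j ∈ R, ∀ l < m, e γ k j l = x (b j) l) ∧
      ∀ p ∈ s1, e γ k p.1 p.2.1 = p.2.2) →
    ∃ k0 k1, (∀ p ∈ s0, e γ k0 p.1 p.2.1 = p.2.2) ∧ (∀ p ∈ s1, e γ k1 p.1 p.2.1 = p.2.2) ∧
      ∀ i ∈ R, Lx (e γ k0 i) (e γ k1 i) := by
  classical
  refine Finset.induction_on_max_value b R ?_ ?_
  · intro _ _ s0 s1 h0 h1
    obtain ⟨k0, -, hk0⟩ := h0 0
    obtain ⟨k1, -, hk1⟩ := h1 0
    exact ⟨k0, k1, hk0, hk1, fun i hi => absurd hi (Finset.notMem_empty i)⟩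
  · intro i s his hmax ih hinj hγ s0 s1 h0 h1
    have hsub : ∀ j ∈ s, j ∈ insert i s := fun j hj => Finset.mem_insert_of_mem hj
    have hi : i ∈ insert i s := Finset.mem_insert_self i s
    have hlt : ∀ j ∈ s, b j < b i := by
      intro j hj
      refine lt_of_le_of_ne (hmax j hj) fun h => ?_
      have : j = i := hinj (by exact_mod_cast hsub j hj) (by exact_mod_cast hi) h
      exact his (this ▸ hj)
    let τ : Finset (ℕ × W1) := s.image fun j => (j, b j)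
    have hτ : ∀ (k m : ℕ), (∀ q ∈ τ, ∀ l < m, e γ k q.1 l = x q.2 l) ↔
        ∀ j ∈ s, ∀ l < m, e γ k j l = x (b j) l := by
      intro k m
      constructor
      · intro h j hj l hl
        exact h (j, b j) (Finset.mem_image.2 ⟨j, hj, rfl⟩) l hl
      · intro h q hq l hl
        obtain ⟨j, hj, rfl⟩ := Finset.mem_image.1 hq
        exact h j hj l hl
    have hmem : x (b i) ∈ Bset e x γ i τ s0 s1 := by
      intro m
      obtain ⟨k0, hk0, hk0'⟩ := h0 m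
      obtain ⟨k1, hk1, hk1'⟩ := h1 m
      exact ⟨⟨k0, (hτ k0 m).2 (fun j hj => hk0 j (hsub j hj)), fun l hl => hk0 i hi l hl, hk0'⟩,
        ⟨k1, (hτ k1 m).2 (fun j hj => hk1 j (hsub j hj)), fun l hl => hk1 i hi l hl, hk1'⟩⟩
    obtain ⟨z, hz, hne⟩ := hav (b i) γ (hγ i hi) i τ s0 s1 (by
      intro q hq
      obtain ⟨j, hj, rfl⟩ := Finset.mem_image.1 hq
      exact hlt j hj) hmem
    have key : ∀ y0 ∈ Bset e x γ i τ s0 s1, ∀ y1 ∈ Bset e x γ i τ s0 s1, Lx y0 y1 →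
        ∃ k0 k1, (∀ p ∈ s0, e γ k0 p.1 p.2.1 = p.2.2) ∧ (∀ p ∈ s1, e γ k1 p.1 p.2.1 = p.2.2) ∧
          ∀ j ∈ insert i s, Lx (e γ k0 j) (e γ k1 j) := by
      rintro y0 hy0 y1 hy1 ⟨n, hn, hn0, hn1⟩
      obtain ⟨k0, k1, h2, h3, h4⟩ := ih
        (fun j hj l hl h => hinj (by exact_mod_cast hsub j hj) (by exact_mod_cast hsub l hl) h)
        (fun j hj => hγ j (hsub j hj))
        (s0 ∪ (Finset.range (n + 1)).image (fun l => (i, l, y0 l)))
        (s1 ∪ (Finset.range (n + 1)).image (fun l => (i, l, y1 l))) (by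
        intro m
        obtain ⟨⟨k, hk1, hk2, hk3⟩, -⟩ := hy0 (max m (n + 1))
        refine ⟨k, (hτ k m).1 (fun q hq l hl => hk1 q hq l (lt_of_lt_of_le hl (le_max_left _ _))),
          ?_⟩
        intro p hp
        rcases Finset.mem_union.1 hp with hp | hp
        · exact hk3 p hp
        · obtain ⟨l, hl, rfl⟩ := Finset.mem_image.1 hp
          exact hk2 l (lt_of_lt_of_le (Finset.mem_range.1 hl) (le_max_right _ _))) (by
        intro m
        obtain ⟨-, ⟨k, hk1, hk2, hk3⟩⟩ := hy1 (max m (n + 1))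
        refine ⟨k, (hτ k m).1 (fun q hq l hl => hk1 q hq l (lt_of_lt_of_le hl (le_max_left _ _))),
          ?_⟩
        intro p hp
        rcases Finset.mem_union.1 hp with hp | hp
        · exact hk3 p hp
        · obtain ⟨l, hl, rfl⟩ := Finset.mem_image.1 hp
          exact hk2 l (lt_of_lt_of_le (Finset.mem_range.1 hl) (le_max_right _ _)))
      refine ⟨k0, k1, fun p hp => h2 p (Finset.mem_union_left _ hp),
        fun p hp => h3 p (Finset.mem_union_left _ hp), ?_⟩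
      intro j hj
      rcases Finset.mem_insert.1 hj with rfl | hj
      · have e0 : ∀ l ≤ n, e γ k0 j l = y0 l := fun l hl => h2 (j, l, y0 l)
          (Finset.mem_union_right _ (Finset.mem_image.2 ⟨l, Finset.mem_range.2 (by omega), rfl⟩))
        have e1 : ∀ l ≤ n, e γ k1 j l = y1 l := fun l hl => h3 (j, l, y1 l)
          (Finset.mem_union_right _ (Finset.mem_image.2 ⟨l, Finset.mem_range.2 (by omega), rfl⟩))
        exact ⟨n, fun l hl => by rw [e0 l hl.le, e1 l hl.le, hn l hl], by rw [e0 n le_rfl, hn0],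
          by rw [e1 n le_rfl, hn1]⟩
      · exact h4 j hj
    rcases lx_total hne with h | h
    · exact key z hz _ hmem h
    · exact key _ hmem z hz h

end TaskDAux

open TaskDAux

theorem taskD : IncStmt := by
  classical
  intro x hx T a J hJ ha
  obtain ⟨e, he, hav⟩ := hx.av
  have hal0 : ∀ ξ i, ∃ α, ξ ∈ J → i ∈ T → E0 (a ξ i) (x α) := by
    intro ξ i
    by_cases h : ξ ∈ J ∧ i ∈ T
    · obtain ⟨α, hα⟩ := ha ξ h.1 i h.2
      exact ⟨α, fun _ _ => hα⟩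
    · exact ⟨ξ, fun h1 h2 => absurd ⟨h1, h2⟩ h⟩
  choose al hal using hal0
  have hM0 : ∀ ξ, ∃ M, ξ ∈ J → ∀ i ∈ T, Ag M (a ξ i) (x (al ξ i)) := by
    intro ξ
    by_cases h : ξ ∈ J
    · have h1 : ∀ i, ∃ m, i ∈ T → Ag m (a ξ i) (x (al ξ i)) := by
        intro i
        by_cases hi : i ∈ T
        · obtain ⟨m, hm⟩ := hal ξ i h hi
          exact ⟨m, fun _ => hm⟩
        · exact ⟨0, fun h => absurd h hi⟩
      choose m hm using h1
      exact ⟨T.sup m, fun _ i hi l hl => hm i hi l ((Finset.le_sup hi).trans hl)⟩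
    · exact ⟨0, fun h1 => absurd h1 h⟩
  choose M hM using hM0
  let tp : ℕ → W1 → (T → List Bool) := fun m ξ i => (List.range m).map (x (al ξ i))
  have htp : ∀ m ξ ξ', tp m ξ = tp m ξ' ↔ ∀ i ∈ T, ∀ l < m, x (al ξ i) l = x (al ξ' i) l := by
    intro m ξ ξ'
    constructor
    · intro h i hi
      exact (map_range_eq_iff m _ _).1 (congrFun h ⟨i, hi⟩)
    · intro h
      funext i
      exact (map_range_eq_iff m _ _).2 (h i.1 i.2)
  let dt : W1 → ℕ × (T → List Bool) × (T → List Bool) × (T → T → Bool) := fun ξ =>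
    (M ξ, (fun i => (List.range (M ξ)).map (a ξ i)), tp (M ξ) ξ,
      fun i j => decide (al ξ i = al ξ j))
  obtain ⟨d, hd⟩ := uncountable_fiber dt J hJ
  set J' : Set W1 := {ξ ∈ J | dt ξ = d} with hJ'
  have hfin : ∀ η ∈ J', ∀ ξ ∈ J', ∀ i ∈ T, (al η i = al ξ i ∨ Lx (x (al η i)) (x (al ξ i))) →
      (a ξ i = a η i ∨ Lx (a η i) (a ξ i)) := by
    intro η hη ξ hξ i hi h
    have h0 : dt η = dt ξ := hη.2.trans hξ.2.symm
    have hMM : M η = M ξ := congrArg Prod.fst h0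
    have hA : ∀ l < M ξ, a η i l = a ξ i l := by
      have h1 := congrArg (fun q => q.2.1) h0
      have h2 := congrFun h1 ⟨i, hi⟩
      have h3 : (List.range (M η)).map (a η i) = (List.range (M ξ)).map (a ξ i) := h2
      rw [hMM] at h3
      exact (map_range_eq_iff _ _ _).1 h3
    have hX : ∀ l < M ξ, x (al η i) l = x (al ξ i) l := by
      have h1 : tp (M η) η = tp (M ξ) ξ := congrArg (fun q => q.2.2.1) h0
      rw [hMM] at h1
      exact (htp _ _ _).1 h1 i hi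
    have g1 := hM η hη.1 i hi
    have g2 := hM ξ hξ.1 i hi
    rw [hMM] at g1
    rcases h with h | ⟨n, hn, hn0, hn1⟩
    · left
      funext l
      by_cases hl : l < M ξ
      · exact (hA l hl).symm
      · rw [g1 l (not_lt.1 hl), g2 l (not_lt.1 hl), h]
    · right
      have hnM : M ξ ≤ n := by
        by_contra hc
        have h5 := hX n (not_le.1 hc)
        rw [hn0, hn1] at h5
        exact Bool.noConfusion h5
      refine ⟨n, fun l hl => ?_, by rw [g1 n hnM, hn0], by rw [g2 n hnM, hn1]⟩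
      by_cases hl' : l < M ξ
      · exact hA l hl'
      · rw [g1 l (not_lt.1 hl'), g2 l (not_lt.1 hl'), hn l hl]
  have hpat : ∀ η ∈ J', ∀ ξ ∈ J', ∀ i ∈ T, ∀ j ∈ T, al ξ i = al ξ j → al η i = al η j := by
    intro η hη ξ hξ i hi j hj h
    have h0 : dt η = dt ξ := hη.2.trans hξ.2.symm
    have h1 := congrArg (fun q => q.2.2.2) h0
    have h2 := congrFun (congrFun h1 ⟨i, hi⟩) ⟨j, hj⟩
    have h3 : decide (al η i = al η j) = decide (al ξ i = al ξ j) := h2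
    simpa [h] using h3
  -- constant coordinates
  obtain ⟨S, J1, hST, hJ1J, hJ1, hconst, hfib⟩ : ∃ (S : Finset ℕ) (J1 : Set W1), S ⊆ T ∧
      J1 ⊆ J' ∧ ¬ J1.Countable ∧ (∀ i ∈ S, ∃ c, ∀ ξ ∈ J1, al ξ i = c) ∧
      ∀ i ∈ T, i ∉ S → ∀ c, {ξ ∈ J1 | al ξ i = c}.Countable := by
    let P : Finset ℕ → Prop := fun S => ∃ J1 : Set W1, J1 ⊆ J' ∧ ¬ J1.Countable ∧
      ∀ i ∈ S, ∃ c, ∀ ξ ∈ J1, al ξ i = c
    have hne : (T.powerset.filter P).Nonempty := by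
      refine ⟨∅, Finset.mem_filter.2 ⟨Finset.empty_mem_powerset _, J', le_refl _, hd, ?_⟩⟩
      intro i hi
      exact absurd hi (Finset.notMem_empty i)
    obtain ⟨S, hS, hmax⟩ := Finset.exists_max_image _ Finset.card hne
    rw [Finset.mem_filter, Finset.mem_powerset] at hS
    obtain ⟨hST, J1, hJ1J, hJ1, hconst⟩ := hS
    refine ⟨S, J1, hST, hJ1J, hJ1, hconst, ?_⟩
    intro i hiT hiS c
    by_contra hcon
    have hP : P (insert i S) := by
      refine ⟨{ξ ∈ J1 | al ξ i = c}, fun ξ hξ => hJ1J hξ.1, hcon, ?_⟩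
      intro j hj
      rcases Finset.mem_insert.1 hj with rfl | hj
      · exact ⟨c, fun ξ hξ => hξ.2⟩
      · obtain ⟨d, hd⟩ := hconst j hj
        exact ⟨d, fun ξ hξ => hd ξ hξ.1⟩
    have hle := hmax (insert i S) (Finset.mem_filter.2 ⟨Finset.mem_powerset.2
      (Finset.insert_subset hiT hST), hP⟩)
    rw [Finset.card_insert_of_notMem hiS] at hle
    omega
  -- condensation
  set bad : Set W1 := {ξ | ξ ∈ J1 ∧ ∃ m, {ξ' | ξ' ∈ J1 ∧ tp m ξ' = tp m ξ}.Countable} with hbaddef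
  have hbad : bad.Countable := by
    have hsub : bad ⊆ ⋃ m : ℕ, ⋃ t ∈ {t : T → List Bool | {ξ' | ξ' ∈ J1 ∧ tp m ξ' = t}.Countable},
        {ξ' | ξ' ∈ J1 ∧ tp m ξ' = t} := by
      rintro ξ ⟨hξ, m, hm⟩
      simp only [mem_iUnion]
      exact ⟨m, tp m ξ, hm, hξ, rfl⟩
    exact Set.Countable.mono hsub
      (Set.countable_iUnion fun m => (Set.to_countable _).biUnion fun t ht => ht)
  set J2 : Set W1 := J1 \ bad with hJ2def
  have hJ2 : ¬ J2.Countable := fun h => hJ1 ((h.union hbad).mono (by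
    intro ξ hξ
    by_cases hb : ξ ∈ bad
    · exact Or.inr hb
    · exact Or.inl ⟨hξ, hb⟩))
  have hcond : ∀ ξ ∈ J2, ∀ m, ¬ {ξ' | ξ' ∈ J2 ∧ tp m ξ' = tp m ξ}.Countable := by
    intro ξ hξ m hcount
    apply hξ.2
    refine ⟨hξ.1, m, ?_⟩
    refine (hcount.union hbad).mono ?_
    rintro ξ' ⟨h1, h2⟩
    by_cases hb : ξ' ∈ bad
    · exact Or.inr hb
    · exact Or.inl ⟨⟨h1, hb⟩, h2⟩
  obtain ⟨ξ0, hξ0⟩ : J2.Nonempty := by
    by_contra h
    rw [Set.not_nonempty_iff_eq_empty] at h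
    exact hJ2 (by rw [h]; exact Set.countable_empty)
  obtain ⟨f, hf⟩ := exists_surjective_nat (ℕ × (T → List Bool))
  have hseq : ∀ k, ∃ ξ ∈ J2, (∃ ξ' ∈ J2, tp (f k).1 ξ' = (f k).2) → tp (f k).1 ξ = (f k).2 := by
    intro k
    by_cases h : ∃ ξ' ∈ J2, tp (f k).1 ξ' = (f k).2
    · obtain ⟨ξ', h1, h2⟩ := h
      exact ⟨ξ', h1, fun _ => h2⟩
    · exact ⟨ξ0, hξ0, fun h' => absurd h' h⟩
  choose sq hsqJ hsq using hseq
  have hdense : ∀ ξ ∈ J2, ∀ m, ∃ k, tp m (sq k) = tp m ξ := by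
    intro ξ hξ m
    obtain ⟨k, hk⟩ := hf (m, tp m ξ)
    refine ⟨k, ?_⟩
    have h1 := hsq k ⟨ξ, hξ, by rw [hk]⟩
    rw [hk] at h1
    exact h1
  obtain ⟨γ, hγ⟩ := he (fun k i => x (al (sq k) i))
  have hsmall : {ξ | ξ ∈ J2 ∧ ∃ i ∈ T, i ∉ S ∧ al ξ i ≤ γ}.Countable := by
    have hsub : {ξ | ξ ∈ J2 ∧ ∃ i ∈ T, i ∉ S ∧ al ξ i ≤ γ} ⊆
        ⋃ i ∈ {i | i ∈ T ∧ i ∉ S}, ⋃ c ∈ Set.Iic γ, {ξ ∈ J1 | al ξ i = c} := by
      rintro ξ ⟨hξ, i, hiT, hiS, h⟩
      simp only [mem_iUnion]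
      exact ⟨i, ⟨hiT, hiS⟩, al ξ i, h, hξ.1, rfl⟩
    refine Set.Countable.mono hsub ?_
    refine (Set.to_countable _).biUnion fun i hi => (countable_Iic W1_Iio γ).biUnion fun c _ => ?_
    exact hfib i hi.1 hi.2 c
  obtain ⟨ξs, hξs, hξs2⟩ : ∃ ξ ∈ J2, ¬ (∃ i ∈ T, i ∉ S ∧ al ξ i ≤ γ) := by
    by_contra h
    push Not at h
    have hsub : J2 ⊆ {ξ | ξ ∈ J2 ∧ ∃ i ∈ T, i ∉ S ∧ al ξ i ≤ γ} := fun ξ hξ => ⟨hξ, h ξ hξ⟩
    exact hJ2 (hsmall.mono hsub)
  push Not at hξs2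
  -- representatives
  set N : Finset ℕ := T.filter fun i => i ∉ S with hN
  set R0 : Finset ℕ := N.filter fun i => ∀ j ∈ N, al ξs j = al ξs i → i ≤ j with hR0
  have hRN : ∀ i ∈ R0, i ∈ N := fun i hi => (Finset.mem_filter.1 hi).1
  have hNT : ∀ i ∈ N, i ∈ T := fun i hi => (Finset.mem_filter.1 hi).1
  have hNS : ∀ i ∈ N, i ∉ S := fun i hi => (Finset.mem_filter.1 hi).2
  have hinj : Set.InjOn (al ξs) R0 := by
    intro i hi j hj h
    have hi' := Finset.mem_filter.1 (Finset.mem_coe.1 hi)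
    have hj' := Finset.mem_filter.1 (Finset.mem_coe.1 hj)
    exact le_antisymm (hi'.2 j hj'.1 h.symm) (hj'.2 i hi'.1 h)
  have hrep : ∀ i ∈ N, ∃ r ∈ R0, al ξs i = al ξs r := by
    intro i hi
    obtain ⟨r, hr, hrmin⟩ := Finset.exists_min_image (N.filter fun j => al ξs j = al ξs i) id
      ⟨i, Finset.mem_filter.2 ⟨hi, rfl⟩⟩
    have hr' := Finset.mem_filter.1 hr
    refine ⟨r, Finset.mem_filter.2 ⟨hr'.1, fun j hj hjr => ?_⟩, hr'.2.symm⟩
    exact hrmin j (Finset.mem_filter.2 ⟨hj, hjr.trans hr'.2⟩)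
  have hinit : ∀ m : ℕ, ∃ k, (∀ j ∈ R0, ∀ l < m, e γ k j l = x (al ξs j) l) ∧
      ∀ p ∈ (∅ : Finset (ℕ × ℕ × Bool)), e γ k p.1 p.2.1 = p.2.2 := by
    intro m
    obtain ⟨k, hk⟩ := hdense ξs hξs m
    refine ⟨k, fun j hj l hl => ?_, fun p hp => absurd hp (Finset.notMem_empty p)⟩
    rw [hγ]
    exact (htp _ _ _).1 hk j (hNT j (hRN j hj)) l hl
  obtain ⟨k0, k1, -, -, hk⟩ := elim x e hav γ (al ξs) R0 hinj
    (fun i hi => hξs2 i (hNT i (hRN i hi)) (hNS i (hRN i hi))) ∅ ∅ hinit hinit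
  have hn0 : ∀ i, ∃ n, i ∈ R0 → (∀ l < n, x (al (sq k0) i) l = x (al (sq k1) i) l) ∧
      x (al (sq k0) i) n = false ∧ x (al (sq k1) i) n = true := by
    intro i
    by_cases hi : i ∈ R0
    · have h := hk i hi
      rw [hγ] at h
      obtain ⟨n, h1, h2, h3⟩ := h
      exact ⟨n, fun _ => ⟨h1, h2, h3⟩⟩
    · exact ⟨0, fun h => absurd h hi⟩
  choose n hn using hn0
  obtain ⟨ξ, hξ, hgt⟩ : ∃ ξ ∈ {ξ' | ξ' ∈ J2 ∧ tp (R0.sup n + 1) ξ' = tp (R0.sup n + 1) (sq k1)},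
      sq k0 < ξ := by
    by_contra h
    push Not at h
    exact hcond (sq k1) (hsqJ k1) _ ((countable_Iic W1_Iio (sq k0)).mono fun ξ hξ => h ξ hξ)
  have hJ2J' : ∀ ξ ∈ J2, ξ ∈ J' := fun ξ hξ => hJ1J hξ.1
  refine ⟨sq k0, (hJ2J' _ (hsqJ k0)).1, ξ, (hJ2J' _ hξ.1).1, hgt, ?_⟩
  intro i hi
  apply hfin (sq k0) (hJ2J' _ (hsqJ k0)) ξ (hJ2J' _ hξ.1) i hi
  by_cases hiS : i ∈ S
  · left
    obtain ⟨c, hc⟩ := hconst i hiS
    rw [hc _ (hsqJ k0).1, hc _ hξ.1.1]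
  · right
    obtain ⟨r, hr, hri⟩ := hrep i (Finset.mem_filter.2 ⟨hi, hiS⟩)
    have hrT := hNT r (hRN r hr)
    have e1 : al (sq k0) i = al (sq k0) r :=
      hpat _ (hJ2J' _ (hsqJ k0)) ξs (hJ2J' _ hξs) i hi r hrT hri
    have e2 : al ξ i = al ξ r := hpat _ (hJ2J' _ hξ.1) ξs (hJ2J' _ hξs) i hi r hrT hri
    rw [e1, e2]
    obtain ⟨h1, h2, h3⟩ := hn r hr
    have hlt : n r < R0.sup n + 1 := Nat.lt_succ_of_le (Finset.le_sup hr)
    have h4 := (htp _ ξ (sq k1)).1 hξ.2 r hrT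
    exact ⟨n r, fun l hl => by rw [h1 l hl, h4 l (hl.trans hlt)], h2, by rw [h4 _ hlt, h3]⟩

end Pool.Agent.H774R5
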