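import Pool.Agent.H774R5.Defs

set_option autoImplicit false

/-! Project H774-HSS, task E (helper714), adapted from `Fam.hs` of helper916. -/

namespace Pool.Agent.H774R5

open Set Filter Topology
open Pool.Agent.H916R3.HFC (W1 W1_Iio W1_univ exists_seq exists_sep
  uncountable_fiber)

theorem taskE : IncStmt → NbhdStmt → HSStmt := by
  intro hInc hNb x hx S
  classical
  by_contra hcon
  push Not at hcon
  obtain ⟨f, hf⟩ := exists_seq (I := W1)
    (fun (C : Set {f : Sp x → ℝ // Continuous f}) g => g ∈ S ∧ g ∉ closure (C ∩ S)) W1_Iio (by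
      intro C hC
      have h1 := hcon (C ∩ S) Set.inter_subset_right (hC.mono Set.inter_subset_left)
      rw [Set.not_subset] at h1
      obtain ⟨g, hg1, hg2⟩ := h1
      exact ⟨g, hg1, hg2⟩)
  choose F m hFm using fun ξ => exists_sep _ (f ξ) (hf ξ).2
  let pz : W1 → Sp x := fun ξ => ⟨x ξ, ξ, 0, fun _ _ => rfl⟩
  let b : W1 → ℕ → Sp x := fun ξ i => if h : i < (F ξ).card then
    ((F ξ).equivFin.symm ⟨i, h⟩).1 else pz ξ
  have hq : ∀ (ξ : W1) (i : ℕ), ∃ q : ℚ, |(f ξ).1 (b ξ i) - q| < 1 / ((m ξ : ℝ) + 1) / 4 := by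
    intro ξ i
    have : (0 : ℝ) < 1 / ((m ξ : ℝ) + 1) / 4 := by positivity
    obtain ⟨q, hq1, hq2⟩ := exists_rat_btwn (lt_add_of_pos_right ((f ξ).1 (b ξ i)) this)
    refine ⟨q, ?_⟩
    rw [abs_sub_comm, abs_of_pos (by linarith)]
    linarith
  choose q hq using hq
  have hN : ∀ (ξ : W1) (i : ℕ), ∃ N : ℕ, ∀ w : Sp x, (∀ l < N, w.1 l = (b ξ i).1 l) →
      (w = b ξ i ∨ Lx (b ξ i).1 w.1) → |(f ξ).1 w - q ξ i| < 1 / ((m ξ : ℝ) + 1) / 4 := by
    intro ξ i
    have hop : IsOpen {z : Sp x | |(f ξ).1 z - q ξ i| < 1 / ((m ξ : ℝ) + 1) / 4} := by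
      have hcont : Continuous fun z : Sp x => |(f ξ).1 z - q ξ i| :=
        ((f ξ).2.sub continuous_const).abs
      exact isOpen_lt hcont continuous_const
    exact hNb x _ hop (b ξ i) (hq ξ i)
  choose N hN using hN
  obtain ⟨⟨m0, n0, l0⟩, hJ⟩ := uncountable_fiber
    (fun ξ : W1 => (m ξ, (F ξ).card, (List.range (F ξ).card).map
      (fun i => (q ξ i, N ξ i, (List.range (N ξ i)).map (b ξ i).1)))) Set.univ W1_univ
  obtain ⟨η, hη, ξ, hξ, hlt, hinc⟩ := hInc x hx (Finset.range n0) (fun ξ i => (b ξ i).1) _ hJ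
    (fun ξ _ i _ => (b ξ i).2)
  have hcη := hη.2
  have hcξ := hξ.2
  simp only [Prod.mk.injEq] at hcη hcξ
  have hm : m η = m ξ := hcη.1.trans hcξ.1.symm
  have hn : (F ξ).card = n0 := hcξ.2.1
  have hn' : (F η).card = n0 := hcη.2.1
  have hql : ∀ i < n0, q η i = q ξ i ∧ N η i = N ξ i ∧
      (List.range (N η i)).map (b η i).1 = (List.range (N ξ i)).map (b ξ i).1 := by
    have h1 : (List.range n0).map
        (fun i => (q η i, N η i, (List.range (N η i)).map (b η i).1)) = (List.range n0).map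
        (fun i => (q ξ i, N ξ i, (List.range (N ξ i)).map (b ξ i).1)) := by
      have h2 := hcη.2.2.trans hcξ.2.2.symm
      rwa [hn, hn'] at h2
    intro i hi
    have h3 := (List.map_inj_left.1 h1) i (List.mem_range.2 hi)
    simp only [Prod.mk.injEq] at h3
    exact h3
  obtain ⟨y, hyF, hy⟩ := hFm ξ (f η) ⟨⟨η, hlt, rfl⟩, (hf η).1⟩
  have hi0 := ((F ξ).equivFin ⟨y, hyF⟩).2
  set i : ℕ := ((F ξ).equivFin ⟨y, hyF⟩).1 with hi
  have hai : b ξ i = y := by
    simp only [b, hi0, dif_pos]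
    have : (⟨i, hi0⟩ : Fin (F ξ).card) = (F ξ).equivFin ⟨y, hyF⟩ := rfl
    rw [this, Equiv.symm_apply_apply]
  have hin : i < n0 := hn ▸ hi0
  obtain ⟨hq1, hN1, hpre⟩ := hql i hin
  have h1 : |(f η).1 y - q η i| < 1 / ((m η : ℝ) + 1) / 4 := by
    rw [← hai]
    refine hN η i (b ξ i) ?_ ?_
    · intro l hl
      rw [hN1] at hpre hl
      exact ((List.map_inj_left.1 hpre) l (List.mem_range.2 hl)).symm
    · rcases hinc i (Finset.mem_range.2 hin) with h | h
      · exact Or.inl (Subtype.ext h)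
      · exact Or.inr h
  have h2 : |(f ξ).1 y - q ξ i| < 1 / ((m ξ : ℝ) + 1) / 4 := by
    have h3 := hq ξ i
    rwa [hai] at h3
  rw [hq1, hm] at h1
  have hpos : (0 : ℝ) < 1 / ((m ξ : ℝ) + 1) := by positivity
  have h4 : |(f η).1 y - (f ξ).1 y| ≤ |(f η).1 y - q ξ i| + |(f ξ).1 y - q ξ i| := by
    have : (f η).1 y - (f ξ).1 y = ((f η).1 y - q ξ i) - ((f ξ).1 y - q ξ i) := by ring
    rw [this]
    exact abs_sub _ _
  linarith

end Pool.Agent.H774R5
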