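import Mathlib
import Pool.Agent.H774R5.Defs

set_option autoImplicit false

/-!
# Task A: decreasing sequences of conditions have lower bounds
-/

namespace Pool.Agent.H774R5.TaskA768

open Set Pool.Agent.H774R5

theorem le_refl (p : Cond) : p.Le p := ⟨0, fun _ _ => ⟨fun h => h, fun _ => rfl⟩⟩

theorem le_trans {r q p : Cond} (h1 : r.Le q) (h2 : q.Le p) : r.Le p := by
  obtain ⟨m1, h1⟩ := h1
  obtain ⟨m2, h2⟩ := h2
  refine ⟨max m1 m2, fun n hn => ?_⟩
  have a1 := h1 n ((le_max_left _ _).trans hn)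
  have a2 := h2 n ((le_max_right _ _).trans hn)
  refine ⟨fun h => a2.1 (a1.1 h), fun h => ?_⟩
  rw [a1.2 (fun h3 => h (a2.1 h3)), a2.2 h]

theorem taskA : Pool.Agent.H774R5.LimStmt := by
  classical
  intro p hp
  have hle : ∀ j n, j ≤ n → (p n).Le (p j) := by
    intro j n hjn
    induction n, hjn using Nat.le_induction with
    | base => exact le_refl _
    | succ n _ ih => exact le_trans (hp n) ih
  have hle' : ∀ n j, ∃ m, j ≤ n → ∀ l, m ≤ l →
      (l ∈ (p n).y → l ∈ (p j).y) ∧ (l ∉ (p j).y → (p n).g l = (p j).g l) := by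
    intro n j
    by_cases h : j ≤ n
    · obtain ⟨m, hm⟩ := hle j n h
      exact ⟨m, fun _ => hm⟩
    · exact ⟨0, fun h' => absurd h' h⟩
  choose mm hmm using hle'
  let M : ℕ → ℕ := fun n => (Finset.range (n + 1)).sup (mm n)
  have hM : ∀ n j, j ≤ n → ∀ l, M n ≤ l →
      (l ∈ (p n).y → l ∈ (p j).y) ∧ (l ∉ (p j).y → (p n).g l = (p j).g l) := by
    intro n j hj l hl
    refine hmm n j hj l (_root_.le_trans ?_ hl)
    exact Finset.le_sup (f := mm n) (Finset.mem_range.2 (Nat.lt_succ_of_le hj))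
  have hnx : ∀ n a, ∃ l, l ∈ (p n).y ∧ a < l := fun n a => (p n).inf.exists_gt a
  choose nx hnx1 hnx2 using hnx
  obtain ⟨k, hk0, hks⟩ : ∃ k : ℕ → ℕ, k 0 = nx 0 (M 0) ∧
      ∀ n, k (n + 1) = nx (n + 1) (max (k n) (M (n + 1))) :=
    ⟨fun n => Nat.rec (motive := fun _ => ℕ) (nx 0 (M 0))
      (fun n a => nx (n + 1) (max a (M (n + 1)))) n, rfl, fun n => rfl⟩
  have hkm : StrictMono k := strictMono_nat_of_lt_succ fun n => by
    rw [hks]
    exact lt_of_le_of_lt (le_max_left _ _) (hnx2 _ _)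
  have hky : ∀ n, k n ∈ (p n).y := by
    intro n
    cases n with
    | zero => rw [hk0]; exact hnx1 _ _
    | succ n => rw [hks]; exact hnx1 _ _
  have hkM : ∀ n, M n ≤ k n := by
    intro n
    cases n with
    | zero => rw [hk0]; exact (hnx2 _ _).le
    | succ n => rw [hks]; exact ((le_max_right _ _).trans_lt (hnx2 _ _)).le
  let idx : ℕ → ℕ := fun l => Nat.findGreatest (fun n : ℕ => k n ≤ l) l
  let qg : Cantor := fun l => (p (idx l)).g l
  refine ⟨⟨range k, infinite_range_of_injective hkm.injective, qg⟩,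
    fun j => ⟨k j, fun l hl => ⟨?_, ?_⟩⟩⟩
  · rintro ⟨n, rfl⟩
    have hjn : j ≤ n := hkm.le_iff_le.1 hl
    exact (hM n j hjn (k n) (hkM n)).1 (hky n)
  · intro hlj
    have hjl : j ≤ l := (hkm.id_le j).trans hl
    have h1 : j ≤ idx l := Nat.le_findGreatest hjl hl
    have h2 : k (idx l) ≤ l := Nat.findGreatest_spec (P := fun n : ℕ => k n ≤ l) hjl hl
    exact (hM _ j h1 l ((hkM _).trans h2)).2 hlj

end Pool.Agent.H774R5.TaskA768
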