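import Mathlib
import Pool.Agent.H774R5.Defs

set_option autoImplicit false

/-!
# Task F (helper135): closures of countable sets of `C_p` are sequential
-/

namespace Pool.Agent.H774R5

open Set Filter Topology
open Pool.Agent.H916R3.HFC (W1)

namespace TF

/-- inner part of `O` in the Cantor topology -/
def V {x : W1 → Cantor} (O : Set (Sp x)) : Set Cantor :=
  {v | ∃ m : ℕ, ∀ w : Sp x, (∀ l < m, w.1 l = v l) → w ∈ O}

/-- exceptional points of `O` -/
def E {x : W1 → Cantor} (O : Set (Sp x)) : Set (Sp x) := {z | z ∈ O ∧ z.1 ∉ V O}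

lemma cyl_open (m : ℕ) (v : Cantor) : IsOpen {u : Cantor | ∀ l < m, u l = v l} := by
  have h : {u : Cantor | ∀ l < m, u l = v l} = ⋂ l ∈ Finset.range m, {u : Cantor | u l = v l} := by
    ext u
    simp
  rw [h]
  refine isOpen_biInter_finset fun l _ => ?_
  have hc : Continuous (fun u : Cantor => u l) := continuous_apply l
  exact (isOpen_discrete ({v l} : Set Bool)).preimage hc

lemma V_open {x : W1 → Cantor} (O : Set (Sp x)) : IsOpen (V O) := by
  rw [isOpen_iff_forall_mem_open]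
  rintro v ⟨m, hm⟩
  refine ⟨{u : Cantor | ∀ l < m, u l = v l}, ?_, cyl_open m v, fun l _ => rfl⟩
  intro u hu
  exact ⟨m, fun w hw => hm w fun l hl => (hw l hl).trans (hu l hl)⟩

lemma V_sub {x : W1 → Cantor} (O : Set (Sp x)) (z : Sp x) (hz : z.1 ∈ V O) : z ∈ O := by
  obtain ⟨m, hm⟩ := hz
  exact hm z fun l _ => rfl

lemma lx_total (a b : Cantor) (h : a ≠ b) : Lx a b ∨ Lx b a := by
  classical
  have hex : ∃ n, a n ≠ b n := by
    by_contra hc
    push Not at hc
    exact h (funext hc)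
  have hs := Nat.find_spec hex
  have hmin : ∀ i < Nat.find hex, a i = b i := fun i hi => by
    have := Nat.find_min hex hi
    push Not at this
    exact this
  cases ha : a (Nat.find hex) with
  | false =>
    cases hb : b (Nat.find hex) with
    | false => exact absurd (ha.trans hb.symm) hs
    | true => exact Or.inl ⟨_, hmin, ha, hb⟩
  | true =>
    cases hb : b (Nat.find hex) with
    | false => exact Or.inr ⟨_, fun i hi => (hmin i hi).symm, hb, ha⟩
    | true => exact absurd (ha.trans hb.symm) hs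

lemma step (x : W1 → Cantor) (O : Set (Sp x)) (m : ℕ)
    (z z' : Sp x) (hm : ∀ w : Sp x, (∀ l < m, w.1 l = z.1 l) → (w = z ∨ Lx z.1 w.1) → w ∈ O)
    (hp : ∀ l < m, z'.1 l = z.1 l) (hlx : Lx z.1 z'.1) : z'.1 ∈ V O := by
  obtain ⟨n, hn1, hn2, hn3⟩ := hlx
  have hmn : m ≤ n := by
    by_contra hc
    push Not at hc
    have := hp n hc
    rw [hn2, hn3] at this
    exact absurd this (by decide)
  refine ⟨n + 1, fun w hw => ?_⟩
  have h1 : ∀ i < n, z.1 i = w.1 i := fun i hi => by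
    rw [hn1 i hi, hw i (by omega)]
  refine hm w (fun l hl => (h1 l (by omega)).symm) (Or.inr ⟨n, h1, hn2, ?_⟩)
  rw [hw n (by omega), hn3]

lemma E_countable (hN : NbhdStmt) (x : W1 → Cantor) (O : Set (Sp x)) (hO : IsOpen O) :
    (E O).Countable := by
  classical
  have hch : ∀ z : Sp x, ∃ m : ℕ, z ∈ O → ∀ w : Sp x, (∀ l < m, w.1 l = z.1 l) →
      (w = z ∨ Lx z.1 w.1) → w ∈ O := by
    intro z
    by_cases hz : z ∈ O
    · obtain ⟨m, hm⟩ := hN x O hO z hz
      exact ⟨m, fun _ => hm⟩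
    · exact ⟨0, fun h => absurd h hz⟩
  choose M hM using hch
  refine Set.MapsTo.countable_of_injOn (t := (Set.univ : Set (Σ m : ℕ, (Fin m → Bool))))
    (f := fun z : Sp x => (⟨M z, fun i => z.1 i⟩ : Σ m : ℕ, (Fin m → Bool)))
    (fun _ _ => Set.mem_univ _) ?_ Set.countable_univ
  intro z hz z' hz' h
  have h' : (⟨M z, fun i => z.1 i⟩ : Σ m : ℕ, (Fin m → Bool)) = ⟨M z', fun i => z'.1 i⟩ := h
  have hMeq : M z = M z' := congrArg Sigma.fst h'
  have hpre : ∀ l < M z, z'.1 l = z.1 l := by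
    intro l hl
    have h2 : ∀ (s t : Σ m : ℕ, (Fin m → Bool)), s = t → ∀ (l : ℕ) (h1 : l < s.1) (h2 : l < t.1),
        s.2 ⟨l, h1⟩ = t.2 ⟨l, h2⟩ := by
      rintro s t rfl l h1 h2
      rfl
    exact (h2 _ _ h' l hl (hMeq ▸ hl)).symm
  by_contra hne
  have hne' : z.1 ≠ z'.1 := fun hc => hne (Subtype.ext hc)
  rcases lx_total z.1 z'.1 hne' with hl | hl
  · exact hz'.2 (step x O (M z) z z' (hM z hz.1) hpre hl)
  · exact hz.2 (step x O (M z') z' z (hM z' hz'.1)
      (fun l hl => (hpre l (hMeq ▸ hl)).symm) hl)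

end TF

open TF in
theorem taskF : NbhdStmt → FUStmt := by
  classical
  intro hN x hx D hD f hf
  -- enumerate D
  have hDne : D.Nonempty := by
    rw [Set.nonempty_iff_ne_empty]
    rintro rfl
    simp at hf
  obtain ⟨d, hd⟩ := hD.exists_eq_range hDne
  have hdm : ∀ k, d k ∈ D := fun k => hd ▸ Set.mem_range_self k
  set O : ℕ → ℕ → Set (Sp x) := fun k j => {z | |(d k).1 z - f.1 z| < 1 / ((j : ℝ) + 1)} with hOdef
  have hO : ∀ k j, IsOpen (O k j) := fun k j =>
    isOpen_lt (((d k).2.sub f.2).abs) continuous_const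
  have hsep : ∀ (F : Finset (Sp x)) (j : ℕ), ∃ k, (F : Set (Sp x)) ⊆ O k j := by
    intro F j
    have hopen : IsOpen {g : {f : Sp x → ℝ // Continuous f} |
        ∀ z ∈ F, |g.1 z - f.1 z| < 1 / ((j : ℝ) + 1)} := by
      have h : {g : {f : Sp x → ℝ // Continuous f} | ∀ z ∈ F, |g.1 z - f.1 z| < 1 / ((j : ℝ) + 1)} =
          ⋂ z ∈ F, {g : {f : Sp x → ℝ // Continuous f} | |g.1 z - f.1 z| < 1 / ((j : ℝ) + 1)} := by
        ext g
        simp
      rw [h]
      refine isOpen_biInter_finset fun z _ => ?_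
      refine isOpen_lt ?_ continuous_const
      exact ((((continuous_apply z).comp continuous_subtype_val).sub continuous_const).abs)
    obtain ⟨g, hg1, hg2⟩ := (mem_closure_iff.mp hf) _ hopen (by
      intro z _
      simp only [sub_self, abs_zero]
      positivity)
    rw [hd] at hg2
    obtain ⟨k, rfl⟩ := hg2
    exact ⟨k, fun z hz => hg1 z hz⟩
  -- the exceptional points
  have hEc : (⋃ k, ⋃ j, E (O k j)).Countable :=
    Set.countable_iUnion fun k => Set.countable_iUnion fun j => E_countable hN x _ (hO k j)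
  -- the family is injective
  have hxinj : Function.Injective x := by
    intro α β hab
    rcases lt_trichotomy α β with h | h | h
    · exact absurd ⟨0, fun i _ => by rw [hab]⟩ (hx.ne α β h)
    · exact h
    · exact absurd ⟨0, fun i _ => by rw [hab]⟩ (hx.ne β α h)
  have hxX : ∀ α, x α ∈ XX x := fun α => ⟨α, 0, fun i _ => rfl⟩
  have hunc : ¬ (XX x).Countable := by
    intro hc
    have h1 : (Set.range x).Countable := hc.mono (by rintro _ ⟨α, rfl⟩; exact hxX α)
    have h2 : (Set.univ : Set W1).Countable := by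
      rw [← Set.image_univ] at h1
      exact Set.countable_of_injective_of_countable_image hxinj.injOn h1
    exact Pool.Agent.H916R3.HFC.W1_univ h2
  have hXne : (XX x).Nonempty := by
    rw [Set.nonempty_iff_ne_empty]
    intro h
    rw [h] at hunc
    exact hunc Set.countable_empty
  obtain ⟨v0, hv0⟩ := hXne
  obtain ⟨z0⟩ : Nonempty (Sp x) := ⟨(⟨v0, hv0⟩ : {z : Cantor // z ∈ XX x})⟩
  obtain ⟨c, hc⟩ : ∃ c : ℕ → Sp x, insert z0 (⋃ k, ⋃ j, E (O k j)) = Set.range c :=
    (hEc.insert z0).exists_eq_range (Set.insert_nonempty _ _)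
  set C : Set Cantor := Set.range (fun l => (c l).1) with hCdef
  have hCc : C.Countable := Set.countable_range _
  have hEC : ∀ k j, ∀ z ∈ E (O k j), z.1 ∈ C := by
    intro k j z hz
    have h1 : z ∈ insert z0 (⋃ k, ⋃ j, E (O k j)) :=
      Set.mem_insert_of_mem _ (Set.mem_iUnion.mpr ⟨k, Set.mem_iUnion.mpr ⟨j, hz⟩⟩)
    rw [hc] at h1
    obtain ⟨l, hl⟩ := h1
    exact ⟨l, by rw [← hl]⟩
  have hinf : (XX x \ C).Infinite := by
    intro hfin
    refine hunc ((hfin.countable.union hCc).mono fun v hv => ?_)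
    by_cases h : v ∈ C
    · exact Or.inr h
    · exact Or.inl ⟨hv, h⟩
  set p : ℕ ↪ (XX x \ C : Set Cantor) := hinf.natEmbedding with hp
  -- the indexed family
  let e : ℕ ≃ ℕ × ℕ × ℕ := (Nat.pairEquiv.symm.trans ((Equiv.refl ℕ).prodCongr Nat.pairEquiv.symm))
  let K : ℕ → ℕ := fun t => (e t).1
  let J : ℕ → ℕ := fun t => (e t).2.1
  let N : ℕ → ℕ := fun t => (e t).2.2
  let U : ℕ → Set Cantor := fun t =>
    if N t ≤ J t ∧ ∀ l < N t, c l ∈ O (K t) (J t) then V (O (K t) (J t)) \ {(p (N t)).1} else ∅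
  have hUopen : ∀ t, IsOpen (U t) := by
    intro t
    show IsOpen (if N t ≤ J t ∧ ∀ l < N t, c l ∈ O (K t) (J t) then
      V (O (K t) (J t)) \ {(p (N t)).1} else ∅)
    split_ifs
    · exact (V_open _).sdiff isClosed_singleton
    · exact isOpen_empty
  have hUmem : ∀ t v, v ∈ U t → (N t ≤ J t ∧ ∀ l < N t, c l ∈ O (K t) (J t)) ∧
      v ∈ V (O (K t) (J t)) ∧ v ≠ (p (N t)).1 := by
    intro t v hv
    have hv' : v ∈ (if N t ≤ J t ∧ ∀ l < N t, c l ∈ O (K t) (J t) then
      V (O (K t) (J t)) \ {(p (N t)).1} else ∅) := hv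
    split_ifs at hv' with h
    · exact ⟨h, hv'.1, hv'.2⟩
    · exact absurd hv' (Set.notMem_empty _)
  have hcov : ∀ F : Finset Cantor, (F : Set Cantor) ⊆ XX x \ C → ∃ t, (F : Set Cantor) ⊆ U t := by
    intro F hF
    -- n with p n ∉ F
    have hn : ∃ n, (p n).1 ∉ F := by
      by_contra hc'
      push Not at hc'
      have h1 : (Set.range fun n => (p n).1).Finite :=
        F.finite_toSet.subset (by rintro _ ⟨n, rfl⟩; exact hc' n)
      exact Set.infinite_range_of_injective
        (fun a b hab => p.injective (Subtype.ext hab)) h1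
    obtain ⟨n, hn⟩ := hn
    let F' : Finset (Sp x) := (F.attach.image fun v => (⟨v.1, (hF v.2).1⟩ : Sp x)) ∪
      (Finset.range n).image c
    obtain ⟨k, hk⟩ := hsep F' n
    refine ⟨e.symm (k, n, n), ?_⟩
    have hK : K (e.symm (k, n, n)) = k := by show (e (e.symm (k, n, n))).1 = k; simp
    have hJ : J (e.symm (k, n, n)) = n := by show (e (e.symm (k, n, n))).2.1 = n; simp
    have hNn : N (e.symm (k, n, n)) = n := by show (e (e.symm (k, n, n))).2.2 = n; simp
    intro v hv
    show v ∈ (if N (e.symm (k, n, n)) ≤ J (e.symm (k, n, n)) ∧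
      ∀ l < N (e.symm (k, n, n)), c l ∈ O (K (e.symm (k, n, n))) (J (e.symm (k, n, n))) then
      V (O (K (e.symm (k, n, n))) (J (e.symm (k, n, n)))) \
        {(p (N (e.symm (k, n, n)))).1} else ∅)
    rw [hK, hJ, hNn, if_pos ⟨le_rfl, fun l hl => hk (by
      refine Finset.mem_coe.mpr (Finset.mem_union_right _ ?_)
      exact Finset.mem_image_of_mem _ (Finset.mem_range.mpr hl))⟩]
    refine ⟨?_, fun h => hn ?_⟩
    · by_contra hV
      have hz : (⟨v, (hF hv).1⟩ : Sp x) ∈ E (O k n) := by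
        refine ⟨hk (Finset.mem_coe.mpr (Finset.mem_union_left _ ?_)), hV⟩
        exact Finset.mem_image.mpr ⟨⟨v, hv⟩, Finset.mem_attach _ _, rfl⟩
      exact (hF hv).2 (hEC k n _ hz)
    · have h' : v = (p n).1 := h
      rw [← h']
      exact hv
  obtain ⟨u, hu⟩ := hx.gam C U hCc hUopen hcov
  have hp0 : ∀ m, ∀ᶠ i in atTop, (p m).1 ∈ U (u i) := fun m => hu _ (p m).2
  have hNbig : ∀ m, ∀ᶠ i in atTop, m ≤ N (u i) := by
    intro m
    have h1 : ∀ᶠ i in atTop, ∀ l ∈ Finset.range m, (p l).1 ∈ U (u i) :=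
      (Filter.eventually_all_finset _).mpr fun l _ => hp0 l
    filter_upwards [h1] with i hi
    by_contra hc'
    push Not at hc'
    exact (hUmem _ _ (hi (N (u i)) (Finset.mem_range.mpr hc'))).2.2 rfl
  have hmem : ∀ z : Sp x, ∀ᶠ i in atTop, z ∈ O (K (u i)) (J (u i)) := by
    intro z
    by_cases hz : z.1 ∈ C
    · obtain ⟨l, hl⟩ := hz
      have hl' : c l = z := Subtype.ext hl
      filter_upwards [hp0 0, hNbig (l + 1)] with i hi hi2
      rw [← hl']
      exact (hUmem _ _ hi).1.2 l (by omega)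
    · filter_upwards [hu z.1 ⟨z.2, hz⟩] with i hi
      exact V_sub _ z (hUmem _ _ hi).2.1
  refine ⟨fun i => d (K (u i)), fun i => hdm _, fun z => ?_⟩
  rw [Metric.tendsto_atTop']
  intro ε hε
  obtain ⟨m, hm⟩ := exists_nat_one_div_lt hε
  have hev : ∀ᶠ i in atTop, dist ((d (K (u i))).1 z) (f.1 z) < ε := by
    filter_upwards [hmem z, hNbig m, hp0 0] with i h1 h2 h3
    have h4 : N (u i) ≤ J (u i) := (hUmem _ _ h3).1.1
    have h5 : |(d (K (u i))).1 z - f.1 z| < 1 / ((J (u i) : ℝ) + 1) := h1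
    rw [Real.dist_eq]
    refine h5.trans (lt_of_le_of_lt ?_ hm)
    exact one_div_le_one_div_of_le (by positivity)
      (by have : (m : ℝ) ≤ (J (u i) : ℝ) := by exact_mod_cast (h2.trans h4)
          linarith)
  obtain ⟨i0, hi0⟩ := Filter.eventually_atTop.mp hev
  exact ⟨i0, fun i hi => hi0 i (le_of_lt hi)⟩

end Pool.Agent.H774R5
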